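import Pool.Agent.Q98.SN.Rho

/-!
The configuration functional.
-/

set_option autoImplicit false

namespace Q98.SN

open Finset

variable (𝕜 : Type*) [RCLike 𝕜] {X : Type*} [NormedAddCommGroup X] [NormedSpace 𝕜 X]

/-- the truncated weight of a configuration -/
noncomputable def wgt (t : ℝ) (B : Finset ℕ) (u : ℕ → ℝ) : ℕ → ℝ :=
  fun j => if j ∈ B then t else min t (u j)

/-- the values of all configurations -/
def Val (e : ℕ → X) (u : ℕ → ℝ) : Set ℝ :=
  {v | ∃ (t : ℝ) (A B S : Finset ℕ), 0 < t ∧ (∀ j ∈ A, t ≤ u j) ∧ B.card ≤ A.card ∧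
    Disjoint S A ∧ Disjoint S B ∧ v = rho 𝕜 e (B ∪ S) (wgt t B u)}

/-- domination -/
def Dom (e : ℕ → X) (u' u : ℕ → ℝ) : Prop := ∀ v ∈ Val 𝕜 e u', ∃ v' ∈ Val 𝕜 e u, v ≤ v'

variable {e : ℕ → X}

lemma Dom.trans {u u' u'' : ℕ → ℝ} (h : Dom 𝕜 e u u') (h' : Dom 𝕜 e u' u'') :
    Dom 𝕜 e u u'' := by
  intro v hv
  obtain ⟨v', hv', h1⟩ := h v hv
  obtain ⟨v'', hv'', h2⟩ := h' v' hv'
  exact ⟨v'', hv'', h1.trans h2⟩

lemma dom_mono {u u' : ℕ → ℝ} (h0 : ∀ j, 0 ≤ u j) (h : ∀ j, u' j ≤ u j) : Dom 𝕜 e u' u := by
  rintro v ⟨t, A, B, S, ht, hA, hBA, hSA, hSB, rfl⟩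
  refine ⟨_, ⟨t, A, B, S, ht, fun j hj => (hA j hj).trans (h j), hBA, hSA, hSB, rfl⟩, ?_⟩
  apply rho_mono
  · intro j _
    unfold wgt
    split_ifs
    · exact ht.le
    · exact le_min ht.le (h0 j)
  · intro j hj
    refine Or.inl ⟨hj, ?_⟩
    unfold wgt
    split_ifs
    · exact le_rfl
    · exact min_le_min_left _ (h j)

/-- the move -/
lemma dom_move {t0 : ℝ} (ht0 : 0 < t0) {A0 B0 : Finset ℕ} (hcard : B0.card ≤ A0.card)
    (hdisj : Disjoint A0 B0) {r : ℕ → ℝ} (hr0 : ∀ j, 0 ≤ r j) (hrt : ∀ j, r j ≤ t0)
    {u u' : ℕ → ℝ} (hu : ∀ j, u j = if j ∈ A0 then t0 else if j ∈ B0 then 0 else r j)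
    (hu' : ∀ j, u' j = if j ∈ B0 then t0 else if j ∈ A0 then 0 else r j) : Dom 𝕜 e u' u := by
  classical
  have hu0 : ∀ j, 0 ≤ u j := by
    intro j
    rw [hu]
    split_ifs
    · exact ht0.le
    · exact le_rfl
    · exact hr0 j
  have hu't : ∀ j, u' j ≤ t0 := by
    intro j
    rw [hu']
    split_ifs
    · exact le_rfl
    · exact ht0.le
    · exact hrt j
  rintro v ⟨t, A, B, S, ht, hA, hBA, hSA, hSB, rfl⟩
  rcases lt_or_ge t0 t with hlt | hle
  · -- `A` is empty
    have hAe : A = ∅ := by
      apply Finset.eq_empty_of_forall_notMem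
      intro j hj
      have := hA j hj
      linarith [hu't j]
    have hBe : B = ∅ := by
      rw [hAe, Finset.card_empty] at hBA
      exact Finset.card_eq_zero.mp (by omega)
    subst hAe
    subst hBe
    refine ⟨_, ⟨t0, A0, B0, S \ (A0 ∪ B0), ht0, ?_, hcard, ?_, ?_, rfl⟩, ?_⟩
    · intro j hj
      rw [hu, if_pos hj]
    · rw [Finset.disjoint_left]
      intro j hj hj'
      exact (Finset.mem_sdiff.mp hj).2 (Finset.mem_union_left _ hj')
    · rw [Finset.disjoint_left]
      intro j hj hj'
      exact (Finset.mem_sdiff.mp hj).2 (Finset.mem_union_right _ hj')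
    · apply rho_mono
      · intro j _
        unfold wgt
        split_ifs
        · exact ht0.le
        · exact le_min ht0.le (hu0 j)
      · intro j hj
        rw [Finset.empty_union] at hj
        have e1 : wgt t ∅ u' j = u' j := by
          unfold wgt
          rw [if_neg (Finset.notMem_empty j), min_eq_right ((hu't j).trans hlt.le)]
        rw [e1]
        by_cases hB : j ∈ B0
        · refine Or.inl ⟨Finset.mem_union_left _ hB, ?_⟩
          unfold wgt
          rw [if_pos hB]
          exact hu't j
        · by_cases hA' : j ∈ A0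
          · right
            rw [hu', if_neg hB, if_pos hA']
          · refine Or.inl ⟨Finset.mem_union_right _ (Finset.mem_sdiff.mpr ⟨hj, ?_⟩), ?_⟩
            · rw [Finset.mem_union]
              tauto
            · unfold wgt
              rw [if_neg hB, hu', if_neg hB, if_neg hA', hu, if_neg hA', if_neg hB,
                min_eq_right (hrt j)]
  · -- `t ≤ t0`
    have hAA0 : ∀ j ∈ A, j ∉ A0 := by
      intro j hj hj'
      have h1 := hA j hj
      have h2 : j ∉ B0 := Finset.disjoint_left.mp hdisj hj'
      rw [hu', if_neg h2, if_pos hj'] at h1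
      linarith
    refine ⟨_, ⟨t, (A \ B0) ∪ A0, B ∪ (S ∩ B0), S \ (A0 ∪ B0), ht, ?_, ?_, ?_, ?_, rfl⟩, ?_⟩
    · intro j hj
      rcases Finset.mem_union.mp hj with h1 | h1
      · obtain ⟨h2, h3⟩ := Finset.mem_sdiff.mp h1
        have h4 := hA j h2
        rw [hu', if_neg h3, if_neg (hAA0 j h2)] at h4
        rw [hu, if_neg (hAA0 j h2), if_neg h3]
        exact h4
      · rw [hu, if_pos h1]
        exact hle
    · have h1 : (B ∪ (S ∩ B0)).card ≤ B.card + (S ∩ B0).card := Finset.card_union_le _ _
      have h2 : ((A \ B0) ∪ A0).card = (A \ B0).card + A0.card := by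
        apply Finset.card_union_of_disjoint
        rw [Finset.disjoint_left]
        intro j hj
        exact hAA0 j (Finset.mem_sdiff.mp hj).1
      have h3 : (A \ B0).card + (A ∩ B0).card = A.card := Finset.card_sdiff_add_card_inter _ _
      have h4 : (A ∩ B0).card + (S ∩ B0).card ≤ B0.card := by
        rw [← Finset.card_union_of_disjoint]
        · apply Finset.card_le_card
          intro j hj
          rcases Finset.mem_union.mp hj with h5 | h5
          · exact (Finset.mem_inter.mp h5).2
          · exact (Finset.mem_inter.mp h5).2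
        · rw [Finset.disjoint_left]
          intro j hj hj'
          exact Finset.disjoint_left.mp hSA (Finset.mem_inter.mp hj').1 (Finset.mem_inter.mp hj).1
      omega
    · rw [Finset.disjoint_left]
      intro j hj hj'
      obtain ⟨h1, h2⟩ := Finset.mem_sdiff.mp hj
      rcases Finset.mem_union.mp hj' with h3 | h3
      · exact Finset.disjoint_left.mp hSA h1 (Finset.mem_sdiff.mp h3).1
      · exact h2 (Finset.mem_union_left _ h3)
    · rw [Finset.disjoint_left]
      intro j hj hj'
      obtain ⟨h1, h2⟩ := Finset.mem_sdiff.mp hj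
      rcases Finset.mem_union.mp hj' with h3 | h3
      · exact Finset.disjoint_left.mp hSB h1 h3
      · exact h2 (Finset.mem_union_right _ (Finset.mem_inter.mp h3).2)
    · apply rho_mono
      · intro j _
        unfold wgt
        split_ifs
        · exact ht.le
        · exact le_min ht.le (hu0 j)
      · intro j hj
        rcases Finset.mem_union.mp hj with h1 | h1
        · refine Or.inl ⟨Finset.mem_union_left _ (Finset.mem_union_left _ h1), ?_⟩
          unfold wgt
          rw [if_pos h1, if_pos (Finset.mem_union_left _ h1)]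
        · have h2 : j ∉ B := Finset.disjoint_left.mp hSB h1
          by_cases hB : j ∈ B0
          · have h3 : j ∈ B ∪ (S ∩ B0) :=
              Finset.mem_union_right _ (Finset.mem_inter.mpr ⟨h1, hB⟩)
            refine Or.inl ⟨Finset.mem_union_left _ h3, ?_⟩
            unfold wgt
            rw [if_neg h2, if_pos h3]
            exact min_le_left _ _
          · by_cases hA' : j ∈ A0
            · right
              unfold wgt
              rw [if_neg h2, hu', if_neg hB, if_pos hA']
              exact min_le_right _ _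
            · refine Or.inl ⟨Finset.mem_union_right _ (Finset.mem_sdiff.mpr ⟨h1, ?_⟩), ?_⟩
              · rw [Finset.mem_union]
                tauto
              · have h3 : j ∉ B ∪ (S ∩ B0) := by
                  rw [Finset.mem_union, Finset.mem_inter]
                  tauto
                unfold wgt
                rw [if_neg h2, if_neg h3, hu', if_neg hB, if_neg hA', hu, if_neg hA', if_neg hB]

/-- the greedy comparison: if the values on `A` are at least `t` and those off `A` at most `t`,
then cutting `A` is dominated by changing `B` arbitrarily -/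
lemma dom_greedy {x y : ℕ → ℝ} (hx : ∀ j, 0 ≤ x j) (hy : ∀ j, 0 ≤ y j) {A B : Finset ℕ}
    (hcard : B.card ≤ A.card) {t : ℝ} (ht : 0 < t) (hA : ∀ j ∈ A, t ≤ x j)
    (hA' : ∀ j, j ∉ A → x j ≤ t) (hxy : ∀ j, j ∉ B → y j = x j) :
    Dom 𝕜 e (fun j => if j ∈ A then 0 else x j) y := by
  classical
  -- u2 = x off A ∪ B, t on A \ B
  set u2 : ℕ → ℝ := fun j => if j ∈ A \ B then t else if j ∈ B \ A then 0 else
    (if j ∈ A ∪ B then 0 else x j) with hu2
  set u3 : ℕ → ℝ := fun j => if j ∈ B \ A then t else if j ∈ A \ B then 0 else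
    (if j ∈ A ∪ B then 0 else x j) with hu3
  have h12 : Dom 𝕜 e u2 y := by
    apply dom_mono 𝕜 hy
    intro j
    simp only [hu2]
    split_ifs with h1 h2 h3
    · obtain ⟨h4, h5⟩ := Finset.mem_sdiff.mp h1
      rw [hxy j h5]
      exact hA j h4
    · exact hy j
    · exact hy j
    · rw [Finset.mem_union] at h3
      rw [hxy j (fun h => h3 (Or.inr h))]
  have h32 : Dom 𝕜 e u3 u2 := by
    apply dom_move 𝕜 ht (A0 := A \ B) (B0 := B \ A) (r := fun j => if j ∈ A ∪ B then 0 else x j)
    · have h1 := Finset.card_sdiff_add_card_inter A B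
      have h2 := Finset.card_sdiff_add_card_inter B A
      rw [Finset.inter_comm B A] at h2
      omega
    · rw [Finset.disjoint_left]
      intro j h1 h2
      exact (Finset.mem_sdiff.mp h1).2 (Finset.mem_sdiff.mp h2).1
    · intro j
      show 0 ≤ (if j ∈ A ∪ B then (0:ℝ) else x j)
      split_ifs
      · exact le_rfl
      · exact hx j
    · intro j
      show (if j ∈ A ∪ B then (0:ℝ) else x j) ≤ t
      split_ifs with h
      · exact ht.le
      · rw [Finset.mem_union] at h
        exact hA' j (fun h' => h (Or.inl h'))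
    · intro j
      rfl
    · intro j
      rfl
  have h43 : Dom 𝕜 e (fun j => if j ∈ A then 0 else x j) u3 := by
    apply dom_mono
    · intro j
      simp only [hu3]
      split_ifs
      · exact ht.le
      · exact le_rfl
      · exact le_rfl
      · exact hx j
    · intro j
      simp only [hu3, Finset.mem_sdiff, Finset.mem_union]
      by_cases hjA : j ∈ A <;> by_cases hjB : j ∈ B
      · simp [hjA, hjB]
      · simp [hjA, hjB]
      · simp [hjA, hjB, hA' j hjA]
      · simp [hjA, hjB]
  exact (h43.trans 𝕜 h32).trans 𝕜 h12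

end Q98.SN
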