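import Mathlib

/-!
Definitions for the statement: `s`-norms, the Haar system of `L_p`, and the 1-greedy property.
-/

set_option autoImplicit false

namespace Pool.Agent.Q98.SNDefs

open MeasureTheory Filter Topology
open scoped ENNReal

/-- Lebesgue measure on `[0,1]`. -/
noncomputable def leb : Measure ℝ := volume.restrict (Set.Icc 0 1)

/-- The Haar function
`h_{n,k} = 2^{n/p} (1_{[(k-1)2^{-n}, (k-1/2)2^{-n})} - 1_{[(k-1/2)2^{-n}, k 2^{-n})})`. -/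
noncomputable def haarNK (p : ℝ) (n k : ℕ) (t : ℝ) : ℝ :=
  2 ^ ((n : ℝ) / p) *
    ((Set.Ico (((k : ℝ) - 1) / 2 ^ n) (((k : ℝ) - 1 / 2) / 2 ^ n)).indicator (fun _ => 1) t -
      (Set.Ico (((k : ℝ) - 1 / 2) / 2 ^ n) ((k : ℝ) / 2 ^ n)).indicator (fun _ => 1) t)

/-- The `L_p`-normalised Haar system enumerated by `j = 0, 1, 2, …`: the function number `0` is
`h_0 = 1_{[0,1)}` and the function number `j = 2^n + (k - 1)` with `1 ≤ k ≤ 2^n` is `h_{n,k}`. -/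
noncomputable def haarFun (p : ℝ) (j : ℕ) (t : ℝ) : ℝ :=
  if j = 0 then (Set.Ico (0 : ℝ) 1).indicator (fun _ => 1) t
  else haarNK p (Nat.log 2 j) (j - 2 ^ Nat.log 2 j + 1) t

/-- `h` is the Haar system, as a sequence in `L_p([0,1])` over the scalars `𝕜`. -/
def IsHaar (𝕜 : Type) [RCLike 𝕜] (p : ℝ≥0∞) (h : ℕ → Lp 𝕜 p leb) : Prop :=
  ∀ j, ∀ᵐ t ∂leb, (h j : ℝ → 𝕜) t = (haarFun p.toReal j t : 𝕜)

variable (𝕜 : Type) [RCLike 𝕜] {V : Type} [NormedAddCommGroup V] [NormedSpace 𝕜 V]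

/-- `N` is an `s`-norm. -/
def IsSNorm (s : ℝ) (N : V → ℝ) : Prop :=
  (∀ f, 0 ≤ N f) ∧ (∀ f, N f = 0 ↔ f = 0) ∧ (∀ (t : 𝕜) (f : V), N (t • f) = ‖t‖ * N f) ∧
    ∀ f g, N (f + g) ^ s ≤ N f ^ s + N g ^ s

/-- `N` is equivalent to the norm of `V`. -/
def IsEquivalent (N : V → ℝ) : Prop :=
  ∃ c C : ℝ, 0 < c ∧ 0 < C ∧ ∀ f, c * ‖f‖ ≤ N f ∧ N f ≤ C * ‖f‖

variable {𝕜}

/-- `f = ∑_j a_j h_j`, as the limit of the partial sums in the order of the enumeration. -/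
def Expands (h : ℕ → V) (a : ℕ → 𝕜) (f : V) : Prop :=
  Tendsto (fun n => ∑ j ∈ Finset.range n, a j • h j) atTop (𝓝 f)

variable (𝕜)

/-- `(h_j)` is a Schauder basis. -/
def IsBasis (h : ℕ → V) : Prop := ∀ f, ∃! a : ℕ → 𝕜, Expands h a f

/-- `(h_j)` is 1-greedy for `N`: for every `f = ∑_j a_j h_j`, every finite greedy set `A` of `f`
and every `g = ∑_{j ∈ B} b_j h_j` with `|B| ≤ |A|` one has `N (f - ∑_{j ∈ A} a_j h_j) ≤ N (f - g)`. -/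
def IsOneGreedy (h : ℕ → V) (N : V → ℝ) : Prop :=
  ∀ (f : V) (a : ℕ → 𝕜), Expands h a f → ∀ A : Finset ℕ,
    (∀ i ∈ A, ∀ j, j ∉ A → ‖a j‖ ≤ ‖a i‖) →
    ∀ (B : Finset ℕ) (b : ℕ → 𝕜), B.card ≤ A.card →
      N (f - ∑ j ∈ A, a j • h j) ≤ N (f - ∑ j ∈ B, b j • h j)

end Pool.Agent.Q98.SNDefs
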