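import Pool.Agent.H75R3.HaarLp

/-!
Democracy of the normalised Haar system, on dyadic trees.
-/

set_option autoImplicit false

namespace Q98.SN

open Finset H75R3

/-- normalisation of the Haar functions -/
noncomputable def ww (P : ℝ) (m : ℕ) : ℝ := wt m ^ (1 / P)

lemma wt_pos (m : ℕ) : 0 < wt m := by
  unfold wt
  split_ifs <;> positivity

lemma wt_L {n m : ℕ} (h : m ∈ L n) : wt m = 2 ^ n := by
  have := L_pos h
  unfold wt
  rw [if_neg (by omega), log_L h]

lemma ww_pos (P : ℝ) (m : ℕ) : 0 < ww P m := Real.rpow_pos_of_pos (wt_pos m) _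

lemma ww_zero (P : ℝ) : ww P 0 = 1 := by
  unfold ww wt
  rw [if_pos rfl, Real.one_rpow]

lemma ww_L (P : ℝ) {n m : ℕ} (h : m ∈ L n) : ww P m = (2 ^ (1 / P)) ^ n := by
  unfold ww
  rw [wt_L h, ← Real.rpow_natCast, ← Real.rpow_natCast, ← Real.rpow_mul (by norm_num),
    ← Real.rpow_mul (by norm_num), mul_comm]

lemma ww_pow {P : ℝ} (hP : 0 < P) (m : ℕ) : ww P m ^ P = wt m := by
  unfold ww
  rw [← Real.rpow_mul (wt_pos m).le, one_div, inv_mul_cancel₀ hP.ne', Real.rpow_one]

lemma ww_mul {P Q : ℝ} (h : P.HolderConjugate Q) (m : ℕ) : ww P m * ww Q m = wt m := by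
  unfold ww
  rw [← Real.rpow_add (wt_pos m), one_div, one_div, h.inv_add_inv_eq_one, Real.rpow_one]

/-- geometric constant -/
noncomputable def GG (P : ℝ) : ℝ := 1 / (2 ^ (1 / P) - 1) + 1

lemma rr_gt {P : ℝ} (hP : 0 < P) : 1 < (2:ℝ) ^ (1 / P) :=
  Real.one_lt_rpow (by norm_num) (by positivity)

lemma GG_ge {P : ℝ} (hP : 0 < P) : 1 ≤ GG P := by
  have := rr_gt hP
  unfold GG
  have h2 : 0 < 1 / ((2:ℝ) ^ (1 / P) - 1) := by
    apply div_pos one_pos
    linarith
  linarith

lemma GG_step {P : ℝ} (hP : 0 < P) : GG P + 1 ≤ GG P * 2 ^ (1 / P) := by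
  have h1 := rr_gt hP
  unfold GG
  set r := (2:ℝ) ^ (1 / P) with hr
  have h2 : 0 < r - 1 := by linarith
  have h3 : (1 / (r - 1) + 1) * r = 1 / (r - 1) + 1 + r := by
    field_simp
    ring
  rw [h3]
  linarith

lemma sup_bound {P : ℝ} (hP : 0 < P) (a : ℕ → ℂ) (ha : ∀ m, ‖a m‖ ≤ ww P m) (n : ℕ) :
    ∀ j ∈ L n, ‖tree a j‖ ≤ GG P * (2 ^ (1 / P)) ^ n := by
  induction n with
  | zero =>
    intro j hj
    rw [L_zero, Finset.mem_singleton] at hj
    subst hj
    rw [tree_one, pow_zero, mul_one]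
    have := ha 0
    rw [ww_zero] at this
    exact this.trans (GG_ge hP)
  | succ n ih =>
    intro j hj
    have hm := L_parent hj
    have h1 := L_pos hm
    have h2 := ih _ hm
    have h3 := ha (j / 2)
    rw [ww_L P hm] at h3
    have h4 : ‖tree a j‖ ≤ ‖tree a (j / 2)‖ + ‖a (j / 2)‖ := by
      rcases Nat.mod_two_eq_zero_or_one j with h | h
      · have e : j = 2 * (j / 2) := by omega
        conv_lhs => rw [e]
        rw [tree_even _ _ h1]
        exact norm_add_le _ _
      · have e : j = 2 * (j / 2) + 1 := by omega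
        conv_lhs => rw [e]
        rw [tree_odd _ _ h1]
        exact norm_sub_le _ _
    have h5 := GG_step hP
    have h6 : (0:ℝ) < (2 ^ (1 / P)) ^ n := by positivity
    calc ‖tree a j‖ ≤ GG P * (2 ^ (1 / P)) ^ n + (2 ^ (1 / P)) ^ n := by linarith
      _ = (GG P + 1) * (2 ^ (1 / P)) ^ n := by ring
      _ ≤ (GG P * 2 ^ (1 / P)) * (2 ^ (1 / P)) ^ n := mul_le_mul_of_nonneg_right h5 h6.le
      _ = GG P * (2 ^ (1 / P)) ^ (n + 1) := by rw [pow_succ]; ring

lemma pow_two_rpow {P : ℝ} (hP : 0 < P) (n : ℕ) : (((2:ℝ) ^ (1 / P)) ^ n) ^ P = 2 ^ n := by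
  have h0 : (0:ℝ) ≤ 2 ^ (1 / P) := by positivity
  rw [← Real.rpow_natCast, ← Real.rpow_mul h0, ← Real.rpow_mul (by norm_num),
    ← Real.rpow_natCast]
  congr 1
  field_simp

lemma NP_bound {P : ℝ} (hP : 0 < P) (B : Finset ℕ) (a : ℕ → ℂ)
    (ha : ∀ m ∈ B, ‖a m‖ ≤ ww P m) (ha0 : ∀ m, m ∉ B → a m = 0) (n : ℕ) :
    NP P n a ≤ (GG P + 1) ^ P * ((B ∩ range (2 ^ n)).card : ℝ) := by
  have hG := GG_ge hP
  have hall : ∀ m, ‖a m‖ ≤ ww P m := by
    intro m
    by_cases h : m ∈ B
    · exact ha m h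
    · rw [ha0 m h, norm_zero]
      exact (ww_pos P m).le
  have hG1 : 1 ≤ (GG P + 1) ^ P := Real.one_le_rpow (by linarith) hP.le
  induction n with
  | zero =>
    unfold NP
    rw [L_zero, Finset.sum_singleton, tree_one, pow_zero, div_one]
    by_cases h : 0 ∈ B
    · have e1 : B ∩ range (2 ^ 0) = {0} := by
        ext j
        simp only [Finset.mem_inter, Finset.mem_range, Finset.mem_singleton, pow_zero]
        constructor
        · rintro ⟨_, h2⟩
          omega
        · rintro rfl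
          exact ⟨h, by omega⟩
      rw [e1, Finset.card_singleton, Nat.cast_one, mul_one]
      have h1 := ha 0 h
      rw [ww_zero] at h1
      exact (Real.rpow_le_one (norm_nonneg _) h1 hP.le).trans hG1
    · rw [ha0 0 h, norm_zero, Real.zero_rpow hP.ne']
      positivity
  | succ n ih =>
    have hsplit : (B ∩ range (2 ^ (n + 1))).card = (B ∩ range (2 ^ n)).card + (B ∩ L n).card := by
      rw [range_two_pow_succ, Finset.inter_union_distrib_left]
      apply Finset.card_union_of_disjoint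
      exact Finset.disjoint_of_subset_left Finset.inter_subset_right
        (Finset.disjoint_of_subset_right Finset.inter_subset_right (disj_range_L n))
    have h2n : (0:ℝ) < 2 ^ n := by positivity
    have hterm : ∀ m ∈ L n, ‖tree a (2 * m)‖ ^ P + ‖tree a (2 * m + 1)‖ ^ P ≤
        2 * ‖tree a m‖ ^ P + (if m ∈ B then 2 * ((GG P + 1) ^ P * 2 ^ n) else 0) := by
      intro m hm
      have h1 := L_pos hm
      rw [tree_even _ _ h1, tree_odd _ _ h1]
      by_cases h : m ∈ B
      · rw [if_pos h]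
        have h2 := sup_bound hP a hall n m hm
        have h3 := ha m h
        rw [ww_L P hm] at h3
        have h4 : ∀ z : ℂ, ‖z‖ ≤ ‖tree a m‖ + ‖a m‖ → ‖z‖ ^ P ≤ (GG P + 1) ^ P * 2 ^ n := by
          intro z hz
          calc ‖z‖ ^ P ≤ ((GG P + 1) * (2 ^ (1 / P)) ^ n) ^ P :=
                Real.rpow_le_rpow (norm_nonneg _) (by linarith) hP.le
            _ = (GG P + 1) ^ P * 2 ^ n := by
                rw [Real.mul_rpow (by linarith) (by positivity), pow_two_rpow hP]
        have h5 := h4 _ (norm_add_le (tree a m) (a m))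
        have h6 := h4 _ (norm_sub_le (tree a m) (a m))
        have h7 : 0 ≤ ‖tree a m‖ ^ P := by positivity
        linarith
      · rw [if_neg h, ha0 m h, add_zero, sub_zero]
        linarith
    have hNP : NP P (n + 1) a ≤ NP P n a + (GG P + 1) ^ P * ((B ∩ L n).card : ℝ) := by
      unfold NP
      rw [sum_L_succ, pow_succ, div_le_iff₀ (by positivity)]
      refine (Finset.sum_le_sum hterm).trans ?_
      rw [Finset.sum_add_distrib, ← Finset.mul_sum, ← Finset.sum_filter, Finset.sum_const,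
        nsmul_eq_mul, Finset.filter_mem_eq_inter, Finset.inter_comm (L n) B]
      apply le_of_eq
      field_simp
    rw [hsplit]
    push_cast
    calc NP P (n + 1) a ≤ NP P n a + (GG P + 1) ^ P * ((B ∩ L n).card : ℝ) := hNP
      _ ≤ (GG P + 1) ^ P * ((B ∩ range (2 ^ n)).card : ℝ) +
          (GG P + 1) ^ P * ((B ∩ L n).card : ℝ) := by linarith
      _ = _ := by ring

lemma PR_count {P Q : ℝ} (h : P.HolderConjugate Q) (A : Finset ℕ) (n : ℕ) :
    PR n (fun m => if m ∈ A then (ww P m : ℂ) else 0) (fun m => if m ∈ A then (ww Q m : ℂ) else 0)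
      = ((A ∩ range (2 ^ n)).card : ℂ) := by
  have hprod : ∀ m, (if m ∈ A then (ww P m : ℂ) else 0) * (if m ∈ A then (ww Q m : ℂ) else 0) =
      if m ∈ A then (wt m : ℂ) else 0 := by
    intro m
    split_ifs
    · rw [← Complex.ofReal_mul, ww_mul h]
    · rw [mul_zero]
  induction n with
  | zero =>
    rw [PR_zero, hprod]
    by_cases h0 : 0 ∈ A
    · have e1 : A ∩ range (2 ^ 0) = {0} := by
        ext j
        simp only [Finset.mem_inter, Finset.mem_range, Finset.mem_singleton, pow_zero]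
        constructor
        · rintro ⟨_, h2⟩
          omega
        · rintro rfl
          exact ⟨h0, by omega⟩
      rw [if_pos h0, e1, Finset.card_singleton]
      simp [wt]
    · have e1 : A ∩ range (2 ^ 0) = ∅ := by
        ext j
        simp only [Finset.mem_inter, Finset.mem_range, pow_zero, Finset.notMem_empty, iff_false]
        rintro ⟨h1, h2⟩
        have : j = 0 := by omega
        exact h0 (this ▸ h1)
      rw [if_neg h0, e1, Finset.card_empty, Nat.cast_zero]
  | succ n ih =>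
    rw [PR_succ, ih]
    have hsplit : (A ∩ range (2 ^ (n + 1))).card = (A ∩ range (2 ^ n)).card + (A ∩ L n).card := by
      rw [range_two_pow_succ, Finset.inter_union_distrib_left]
      apply Finset.card_union_of_disjoint
      exact Finset.disjoint_of_subset_left Finset.inter_subset_right
        (Finset.disjoint_of_subset_right Finset.inter_subset_right (disj_range_L n))
    rw [hsplit]
    push_cast
    congr 1
    have h1 : ∑ m ∈ L n, (if m ∈ A then (ww P m : ℂ) else 0) *
        (if m ∈ A then (ww Q m : ℂ) else 0) = ∑ m ∈ L n, if m ∈ A then (2 ^ n : ℂ) else 0 := by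
      refine Finset.sum_congr rfl fun m hm => ?_
      rw [hprod, wt_L hm]
      push_cast
      rfl
    rw [h1, ← Finset.sum_filter, Finset.sum_const, nsmul_eq_mul, Finset.filter_mem_eq_inter,
      Finset.inter_comm (L n) A]
    have h2 : (2 ^ n : ℂ) ≠ 0 := pow_ne_zero _ two_ne_zero
    field_simp

lemma NP_lower {P Q : ℝ} (h : P.HolderConjugate Q) (A : Finset ℕ) (n : ℕ)
    (hA : A ⊆ range (2 ^ n)) : (A.card : ℝ) ^ (1 / P) ≤
      (GG Q + 1) * (NP P n (fun m => if m ∈ A then (ww P m : ℂ) else 0)) ^ (1 / P) := by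
  have hP := h.pos
  have hQ := h.symm.pos
  have hG := GG_ge hQ
  have hAi : A ∩ range (2 ^ n) = A := Finset.inter_eq_left.mpr hA
  set a : ℕ → ℂ := fun m => if m ∈ A then (ww P m : ℂ) else 0 with ha
  set b : ℕ → ℂ := fun m => if m ∈ A then (ww Q m : ℂ) else 0 with hb
  have h1 : ‖PR n a b‖ = A.card := by
    rw [ha, hb, PR_count h, hAi, Complex.norm_natCast]
  have h2 := PR_holder P Q h n a b
  rw [h1] at h2
  have h3 : NP Q n b ≤ (GG Q + 1) ^ Q * (A.card : ℝ) := by
    have := NP_bound hQ A b (fun m hm => by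
      simp only [hb]
      rw [if_pos hm, Complex.norm_real, Real.norm_of_nonneg (ww_pos Q m).le])
      (fun m hm => by simp only [hb]; rw [if_neg hm]) n
    rwa [hAi] at this
  have h4 : (NP Q n b) ^ (1 / Q) ≤ (GG Q + 1) * (A.card : ℝ) ^ (1 / Q) := by
    refine (Real.rpow_le_rpow (NP_nonneg _ _ _) h3 (by positivity)).trans (le_of_eq ?_)
    rw [Real.mul_rpow (by positivity) (by positivity), ← Real.rpow_mul (by linarith), one_div,
      mul_inv_cancel₀ hQ.ne', Real.rpow_one]
  rcases Nat.eq_zero_or_pos A.card with h0 | h0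
  · rw [h0, Nat.cast_zero, Real.zero_rpow (by positivity)]
    exact mul_nonneg (by linarith) (Real.rpow_nonneg (NP_nonneg _ _ _) _)
  · have hc : (0:ℝ) < A.card := by exact_mod_cast h0
    have h5 : (A.card : ℝ) = (A.card : ℝ) ^ (1 / P) * (A.card : ℝ) ^ (1 / Q) := by
      rw [← Real.rpow_add hc, one_div, one_div, h.inv_add_inv_eq_one, Real.rpow_one]
    have h6 : (0:ℝ) < (A.card : ℝ) ^ (1 / Q) := Real.rpow_pos_of_pos hc _
    have h7 : (A.card : ℝ) ^ (1 / P) * (A.card : ℝ) ^ (1 / Q) ≤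
        ((GG Q + 1) * (NP P n a) ^ (1 / P)) * (A.card : ℝ) ^ (1 / Q) := by
      rw [← h5]
      calc (A.card : ℝ) ≤ (NP P n a) ^ (1 / P) * (NP Q n b) ^ (1 / Q) := h2
        _ ≤ (NP P n a) ^ (1 / P) * ((GG Q + 1) * (A.card : ℝ) ^ (1 / Q)) :=
            mul_le_mul_of_nonneg_left h4 (Real.rpow_nonneg (NP_nonneg _ _ _) _)
        _ = _ := by ring
    exact le_of_mul_le_mul_right h7 h6

end Q98.SN
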