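import Pool.Agent.Q98.SN.Conf

/-!
The s-norm from the configuration functional.
-/

set_option autoImplicit false

namespace Q98.SN

open Finset Filter Topology

variable {𝕜 : Type*} [RCLike 𝕜] {X : Type*} [NormedAddCommGroup X] [NormedSpace 𝕜 X]

/-- greedy basis data -/
structure GD (e : ℕ → X) (c : ℕ → X →ₗ[𝕜] 𝕜) (K C : ℝ) : Prop where
  bi : ∀ i j, c i (e j) = if i = j then 1 else 0
  exp : ∀ x, HasSum (fun j => c j x • e j) x
  K1 : 1 ≤ K
  C1 : 1 ≤ C
  unc : ∀ (x : X) (S : Finset ℕ) (b : ℕ → 𝕜), (∀ j ∈ S, ‖b j‖ ≤ ‖c j x‖) →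
    ‖∑ j ∈ S, b j • e j‖ ≤ K * ‖x‖
  dem : ∀ (A B : Finset ℕ), B.card ≤ A.card → ∀ b : ℕ → 𝕜, (∀ j ∈ B, ‖b j‖ ≤ 1) →
    ‖∑ j ∈ B, b j • e j‖ ≤ C * ‖∑ j ∈ A, e j‖

/-- absolute values of the coefficients -/
noncomputable def cf (c : ℕ → X →ₗ[𝕜] 𝕜) (x : X) : ℕ → ℝ := fun j => ‖c j x‖

variable (𝕜) in
/-- the functional -/
noncomputable def NN (e : ℕ → X) (u : ℕ → ℝ) : ℝ := sSup (Val 𝕜 e u)

variable {e : ℕ → X} {c : ℕ → X →ₗ[𝕜] 𝕜} {K C : ℝ}

lemma cf_nonneg (x : X) (j : ℕ) : 0 ≤ cf c x j := norm_nonneg _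

lemma GD.rho_coef (H : GD e c K C) (S : Finset ℕ) (x : X) : rho 𝕜 e S (cf c x) ≤ K * ‖x‖ :=
  rho_le 𝕜 (mul_nonneg (zero_le_one.trans H.K1) (norm_nonneg _)) fun b hb => H.unc x S b hb

lemma GD.rho_dem (H : GD e c K C) {A B : Finset ℕ} (h : B.card ≤ A.card) :
    rho 𝕜 e B (fun _ => 1) ≤ C * rho 𝕜 e A (fun _ => 1) := by
  have hC : 0 ≤ C := zero_le_one.trans H.C1
  refine rho_le 𝕜 (mul_nonneg hC (rho_nonneg 𝕜 _ _)) fun b hb => ?_
  refine (H.dem A B h b hb).trans (mul_le_mul_of_nonneg_left ?_ hC)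
  have h1 := le_rho 𝕜 (e := e) (S := A) (a := fun _ => 1) (b := fun _ => (1 : 𝕜))
    (fun j _ => by simp)
  simpa using h1

lemma GD.rho_pay (H : GD e c K C) {A B : Finset ℕ} (h : B.card ≤ A.card) {t : ℝ} (ht : 0 < t)
    (x : X) (hA : ∀ j ∈ A, t ≤ cf c x j) : rho 𝕜 e B (fun _ => t) ≤ C * (K * ‖x‖) := by
  have hC : 0 ≤ C := zero_le_one.trans H.C1
  have h1 : rho 𝕜 e B (fun _ => t) ≤ t * rho 𝕜 e B (fun _ => 1) := by
    have := rho_smul 𝕜 (e := e) (S := B) (a := fun _ => 1) ht.le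
    simpa using this
  have h2 : t * rho 𝕜 e A (fun _ => 1) ≤ rho 𝕜 e A (fun _ => t) := by
    have := smul_rho 𝕜 (e := e) (S := A) (a := fun _ => 1) ht
    simpa using this
  have h3 : rho 𝕜 e A (fun _ => t) ≤ rho 𝕜 e A (cf c x) :=
    rho_mono 𝕜 (fun j _ => cf_nonneg x j) (fun j hj => Or.inl ⟨hj, hA j hj⟩)
  calc rho 𝕜 e B (fun _ => t) ≤ t * rho 𝕜 e B (fun _ => 1) := h1
    _ ≤ t * (C * rho 𝕜 e A (fun _ => 1)) := mul_le_mul_of_nonneg_left (H.rho_dem h) ht.le
    _ = C * (t * rho 𝕜 e A (fun _ => 1)) := by ring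
    _ ≤ C * (K * ‖x‖) := mul_le_mul_of_nonneg_left
        (h2.trans (h3.trans (H.rho_coef A x))) hC

lemma GD.val_le (H : GD e c K C) (x : X) {v : ℝ} (hv : v ∈ Val 𝕜 e (cf c x)) :
    v ≤ (C + 1) * K * ‖x‖ := by
  classical
  obtain ⟨t, A, B, S, ht, hA, hBA, hSA, hSB, rfl⟩ := hv
  have h1 : rho 𝕜 e (B ∪ S) (wgt t B (cf c x)) ≤
      rho 𝕜 e (B ∪ S) (fun j => (if j ∈ B then t else 0) + (if j ∈ S then cf c x j else 0)) := by
    apply rho_mono
    · intro j _
      apply add_nonneg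
      · split_ifs
        · exact ht.le
        · exact le_rfl
      · split_ifs
        · exact cf_nonneg x j
        · exact le_rfl
    · intro j hj
      refine Or.inl ⟨hj, ?_⟩
      unfold wgt
      rcases Finset.mem_union.mp hj with h | h
      · rw [if_pos h, if_pos h]
        have : 0 ≤ (if j ∈ S then cf c x j else 0) := by
          split_ifs
          · exact cf_nonneg x j
          · exact le_rfl
        linarith
      · have h2 : j ∉ B := Finset.disjoint_left.mp hSB h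
        rw [if_neg h2, if_neg h2, if_pos h, zero_add]
        exact min_le_right _ _
  have h2 := rho_add 𝕜 (e := e) (S := B ∪ S) (a := fun j => if j ∈ B then t else 0)
    (a' := fun j => if j ∈ S then cf c x j else 0)
    (fun j _ => by split_ifs; exacts [ht.le, le_rfl])
    (fun j _ => by split_ifs; exacts [cf_nonneg x j, le_rfl])
  have h3 : rho 𝕜 e (B ∪ S) (fun j => if j ∈ B then t else 0) ≤ rho 𝕜 e B (fun _ => t) := by
    apply rho_mono 𝕜 (fun j _ => ht.le)
    intro j _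
    by_cases h : j ∈ B
    · rw [if_pos h]
      exact Or.inl ⟨h, le_rfl⟩
    · rw [if_neg h]
      exact Or.inr le_rfl
  have h4 : rho 𝕜 e (B ∪ S) (fun j => if j ∈ S then cf c x j else 0) ≤ rho 𝕜 e S (cf c x) := by
    apply rho_mono 𝕜 (fun j _ => cf_nonneg x j)
    intro j _
    by_cases h : j ∈ S
    · rw [if_pos h]
      exact Or.inl ⟨h, le_rfl⟩
    · rw [if_neg h]
      exact Or.inr le_rfl
  have h5 := H.rho_pay hBA ht x hA
  have h6 := H.rho_coef S x
  calc _ ≤ _ := h1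
    _ ≤ _ := h2
    _ ≤ C * (K * ‖x‖) + K * ‖x‖ := add_le_add (h3.trans h5) (h4.trans h6)
    _ = (C + 1) * K * ‖x‖ := by ring

lemma GD.bdd (H : GD e c K C) (x : X) : BddAbove (Val 𝕜 e (cf c x)) :=
  ⟨_, fun _ hv => H.val_le x hv⟩

lemma val_nonempty (u : ℕ → ℝ) : (Val 𝕜 e u).Nonempty :=
  ⟨_, 1, ∅, ∅, ∅, one_pos, by simp, le_rfl, by simp, by simp, rfl⟩

lemma GD.NN_le (H : GD e c K C) (x : X) : NN 𝕜 e (cf c x) ≤ (C + 1) * K * ‖x‖ :=
  csSup_le (val_nonempty _) fun _ hv => H.val_le x hv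

lemma NN_nonneg (u : ℕ → ℝ) : 0 ≤ NN 𝕜 e u := by
  apply Real.sSup_nonneg
  rintro v ⟨t, A, B, S, _, _, _, _, _, rfl⟩
  exact rho_nonneg 𝕜 _ _

lemma GD.norm_le_NN (H : GD e c K C) (x : X) : ‖x‖ ≤ NN 𝕜 e (cf c x) := by
  classical
  have h1 : Tendsto (fun S : Finset ℕ => ‖∑ j ∈ S, c j x • e j‖) atTop (𝓝 ‖x‖) :=
    (H.exp x).norm
  refine le_of_tendsto h1 (Eventually.of_forall fun S => ?_)
  set t : ℝ := 1 + ∑ j ∈ S, cf c x j with ht
  have hpos : 0 < t := by
    have : 0 ≤ ∑ j ∈ S, cf c x j := Finset.sum_nonneg fun j _ => cf_nonneg x j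
    linarith
  have h2 : rho 𝕜 e (∅ ∪ S) (wgt t ∅ (cf c x)) ≤ NN 𝕜 e (cf c x) :=
    le_csSup (H.bdd x) ⟨t, ∅, ∅, S, hpos, by simp, le_rfl, by simp, by simp, rfl⟩
  refine le_trans ?_ h2
  rw [Finset.empty_union]
  apply le_rho
  intro j hj
  unfold wgt
  rw [if_neg (Finset.notMem_empty j)]
  apply le_min _ le_rfl
  have := Finset.single_le_sum (f := cf c x) (fun j _ => cf_nonneg x j) hj
  show cf c x j ≤ t
  linarith

lemma GD.NN_dom (H : GD e c K C) {u' : ℕ → ℝ} (x : X) (h : Dom 𝕜 e u' (cf c x)) :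
    NN 𝕜 e u' ≤ NN 𝕜 e (cf c x) := by
  apply csSup_le (val_nonempty _)
  intro v hv
  obtain ⟨v', hv', h1⟩ := h v hv
  exact h1.trans (le_csSup (H.bdd x) hv')

lemma NN_smul_le (x : X) (H : GD e c K C) {l : 𝕜} (hl : l ≠ 0) :
    NN 𝕜 e (cf c (l • x)) ≤ ‖l‖ * NN 𝕜 e (cf c x) := by
  have hl0 : 0 < ‖l‖ := norm_pos_iff.mpr hl
  have hcf : ∀ j, cf c (l • x) j = ‖l‖ * cf c x j := by
    intro j
    unfold cf
    rw [map_smul, smul_eq_mul, norm_mul]
  apply csSup_le (val_nonempty _)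
  rintro v ⟨t, A, B, S, ht, hA, hBA, hSA, hSB, rfl⟩
  have e1 : wgt t B (cf c (l • x)) = fun j => ‖l‖ * wgt (t / ‖l‖) B (cf c x) j := by
    funext j
    unfold wgt
    split_ifs
    · field_simp
    · rw [hcf, mul_min_of_nonneg _ _ hl0.le]
      congr 1
      field_simp
  rw [e1]
  refine (rho_smul 𝕜 hl0.le).trans (mul_le_mul_of_nonneg_left ?_ hl0.le)
  apply le_csSup (H.bdd x)
  refine ⟨t / ‖l‖, A, B, S, by positivity, ?_, hBA, hSA, hSB, rfl⟩
  intro j hj
  have := hA j hj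
  rw [hcf] at this
  rw [div_le_iff₀ hl0]
  linarith

lemma GD.NN_smul (H : GD e c K C) (l : 𝕜) (x : X) :
    NN 𝕜 e (cf c (l • x)) = ‖l‖ * NN 𝕜 e (cf c x) := by
  rcases eq_or_ne l 0 with rfl | hl
  · rw [norm_zero, zero_mul]
    apply le_antisymm _ (NN_nonneg _)
    have := H.NN_le ((0 : 𝕜) • x)
    rw [zero_smul, norm_zero, mul_zero] at this
    rwa [zero_smul]
  · apply le_antisymm (NN_smul_le x H hl)
    have h1 := NN_smul_le (l • x) H (inv_ne_zero hl)
    rw [smul_smul, inv_mul_cancel₀ hl, one_smul, norm_inv] at h1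
    have hl0 : 0 < ‖l‖ := norm_pos_iff.mpr hl
    rw [inv_mul_eq_div, le_div_iff₀ hl0] at h1
    linarith

/-- the Hölder type quasi-triangle inequality -/
lemma GD.NN_add (H : GD e c K C) (x z : X) {η : ℝ} (hη : 0 < η) (hη2 : η ≤ 1 / 2) :
    NN 𝕜 e (cf c (x + z)) ≤ NN 𝕜 e (cf c x) + 4 * C * K * (η * ‖x‖ + η⁻¹ * ‖z‖) := by
  classical
  have hC : 1 ≤ C := H.C1
  have hK : 1 ≤ K := H.K1
  apply csSup_le (val_nonempty _)
  rintro v ⟨t, A, B, S, ht, hA, hBA, hSA, hSB, rfl⟩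
  set s : ℝ := (1 - η) * t with hs
  have hs0 : 0 < s := by
    apply mul_pos _ ht
    linarith
  have hts : t = s + η * t := by rw [hs]; ring
  have ht2 : t ≤ 2 * s := by rw [hs]; nlinarith
  have htri : ∀ j, cf c (x + z) j ≤ cf c x j + cf c z j := by
    intro j
    unfold cf
    rw [map_add]
    exact norm_add_le _ _
  set Ag := A.filter (fun j => s ≤ cf c x j) with hAg
  set Ab := A.filter (fun j => ¬ s ≤ cf c x j) with hAb
  have hcardA : Ag.card + Ab.card = A.card := Finset.card_filter_add_card_filter_not _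
  have hAgs : ∀ j ∈ Ag, s ≤ cf c x j := fun j hj => (Finset.mem_filter.mp hj).2
  have hAbz : ∀ j ∈ Ab, η * t ≤ cf c z j := by
    intro j hj
    obtain ⟨h1, h2⟩ := Finset.mem_filter.mp hj
    have h3 := hA j h1
    have h4 := htri j
    rw [not_le] at h2
    linarith
  obtain ⟨Bg, hBgB, hBg1, hBg2⟩ : ∃ Bg ⊆ B, Bg.card ≤ Ag.card ∧ (B \ Bg).card ≤ Ab.card := by
    rcases le_total B.card Ag.card with h | h
    · exact ⟨B, Finset.Subset.refl _, h, by simp⟩
    · obtain ⟨Bg, h1, h2⟩ := Finset.exists_subset_card_eq h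
      refine ⟨Bg, h1, h2.le, ?_⟩
      have := Finset.card_sdiff_of_subset h1
      omega
  -- the five parts
  set f1 : ℕ → ℝ := fun j => if j ∈ Bg then s else if j ∈ S then min s (cf c x j) else 0 with hf1
  set f2 : ℕ → ℝ := fun j => if j ∈ Bg then η * t else 0 with hf2
  set f3 : ℕ → ℝ := fun j => if j ∈ S then 2 * η * cf c x j else 0 with hf3
  set f4 : ℕ → ℝ := fun j => if j ∈ S then cf c z j else 0 with hf4
  set f5 : ℕ → ℝ := fun j => if j ∈ B \ Bg then t else 0 with hf5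
  have hηt : 0 < η * t := mul_pos hη ht
  have p1 : ∀ j, 0 ≤ f1 j := by
    intro j
    simp only [hf1]
    split_ifs
    exacts [hs0.le, le_min hs0.le (cf_nonneg x j), le_rfl]
  have p2 : ∀ j, 0 ≤ f2 j := by
    intro j
    simp only [hf2]
    split_ifs
    exacts [hηt.le, le_rfl]
  have p3 : ∀ j, 0 ≤ f3 j := by
    intro j
    simp only [hf3]
    split_ifs
    exacts [mul_nonneg (by linarith) (cf_nonneg x j), le_rfl]
  have p4 : ∀ j, 0 ≤ f4 j := by
    intro j
    simp only [hf4]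
    split_ifs
    exacts [cf_nonneg z j, le_rfl]
  have p5 : ∀ j, 0 ≤ f5 j := by
    intro j
    simp only [hf5]
    split_ifs
    exacts [ht.le, le_rfl]
  have hmin : ∀ j, min t (cf c (x + z) j) ≤ min s (cf c x j) + 2 * η * cf c x j + cf c z j := by
    intro j
    have h1 := htri j
    have h2 := cf_nonneg (c := c) x j
    have h3 := cf_nonneg (c := c) z j
    rcases le_total s (cf c x j) with h | h
    · rw [min_eq_left h]
      have h4 : η * t ≤ 2 * η * cf c x j := by nlinarith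
      calc min t (cf c (x + z) j) ≤ t := min_le_left _ _
        _ = s + η * t := hts
        _ ≤ s + 2 * η * cf c x j + cf c z j := by linarith
    · rw [min_eq_right h]
      have h4 : 0 ≤ 2 * η * cf c x j := mul_nonneg (by linarith) h2
      calc min t (cf c (x + z) j) ≤ cf c (x + z) j := min_le_right _ _
        _ ≤ cf c x j + 2 * η * cf c x j + cf c z j := by linarith
  have hle : ∀ j ∈ B ∪ S, wgt t B (cf c (x + z)) j ≤ f1 j + f2 j + f3 j + f4 j + f5 j := by
    intro j hj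
    have q1 := p1 j
    have q2 := p2 j
    have q3 := p3 j
    have q4 := p4 j
    have q5 := p5 j
    unfold wgt
    by_cases hB : j ∈ B
    · rw [if_pos hB]
      by_cases hBg : j ∈ Bg
      · have e1 : f1 j = s := by simp only [hf1]; rw [if_pos hBg]
        have e2 : f2 j = η * t := by simp only [hf2]; rw [if_pos hBg]
        linarith
      · have e5 : f5 j = t := by
          simp only [hf5]
          rw [if_pos (Finset.mem_sdiff.mpr ⟨hB, hBg⟩)]
        linarith
    · rw [if_neg hB]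
      have hS : j ∈ S := by
        rcases Finset.mem_union.mp hj with h | h
        · exact absurd h hB
        · exact h
      have hBg : j ∉ Bg := fun h => hB (hBgB h)
      have e1 : f1 j = min s (cf c x j) := by simp only [hf1]; rw [if_neg hBg, if_pos hS]
      have e3 : f3 j = 2 * η * cf c x j := by simp only [hf3]; rw [if_pos hS]
      have e4 : f4 j = cf c z j := by simp only [hf4]; rw [if_pos hS]
      have := hmin j
      linarith
  have s1 : rho 𝕜 e (B ∪ S) (wgt t B (cf c (x + z))) ≤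
      rho 𝕜 e (B ∪ S) (fun j => f1 j + f2 j + f3 j + f4 j + f5 j) :=
    rho_mono 𝕜 (fun j _ => by have := p1 j; have := p2 j; have := p3 j; have := p4 j
                              have := p5 j; linarith)
      (fun j hj => Or.inl ⟨hj, hle j hj⟩)
  have s2 := rho_add 𝕜 (e := e) (S := B ∪ S) (a := fun j => f1 j + f2 j + f3 j + f4 j) (a' := f5)
    (fun j _ => by have := p1 j; have := p2 j; have := p3 j; have := p4 j; linarith)
    (fun j _ => p5 j)
  have s3 := rho_add 𝕜 (e := e) (S := B ∪ S) (a := fun j => f1 j + f2 j + f3 j) (a' := f4)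
    (fun j _ => by have := p1 j; have := p2 j; have := p3 j; linarith)
    (fun j _ => p4 j)
  have s4 := rho_add 𝕜 (e := e) (S := B ∪ S) (a := fun j => f1 j + f2 j) (a' := f3)
    (fun j _ => by have := p1 j; have := p2 j; linarith)
    (fun j _ => p3 j)
  have s5 := rho_add 𝕜 (e := e) (S := B ∪ S) (a := f1) (a' := f2)
    (fun j _ => p1 j) (fun j _ => p2 j)
  -- the bounds
  have t1 : rho 𝕜 e (B ∪ S) f1 ≤ NN 𝕜 e (cf c x) := by
    have h1 : rho 𝕜 e (B ∪ S) f1 ≤ rho 𝕜 e (Bg ∪ S) (wgt s Bg (cf c x)) := by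
      apply rho_mono
      · intro j _
        unfold wgt
        split_ifs
        exacts [hs0.le, le_min hs0.le (cf_nonneg x j)]
      · intro j hj
        by_cases hBg : j ∈ Bg
        · refine Or.inl ⟨Finset.mem_union_left _ hBg, ?_⟩
          simp only [hf1]
          unfold wgt
          rw [if_pos hBg, if_pos hBg]
        · by_cases hS : j ∈ S
          · refine Or.inl ⟨Finset.mem_union_right _ hS, ?_⟩
            simp only [hf1]
            unfold wgt
            rw [if_neg hBg, if_neg hBg, if_pos hS]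
          · right
            simp only [hf1]
            rw [if_neg hBg, if_neg hS]
    refine h1.trans (le_csSup (H.bdd x) ⟨s, Ag, Bg, S, hs0, hAgs, hBg1, ?_, ?_, rfl⟩)
    · exact Finset.disjoint_of_subset_right (Finset.filter_subset _ _) hSA
    · exact Finset.disjoint_of_subset_right hBgB hSB
  have t2 : rho 𝕜 e (B ∪ S) f2 ≤ 2 * η * (C * (K * ‖x‖)) := by
    have h1 : rho 𝕜 e (B ∪ S) f2 ≤ rho 𝕜 e Bg (fun _ => 2 * η * s) := by
      apply rho_mono 𝕜 (fun j _ => by positivity)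
      intro j hj
      by_cases hBg : j ∈ Bg
      · refine Or.inl ⟨hBg, ?_⟩
        simp only [hf2]
        rw [if_pos hBg]
        nlinarith
      · right
        simp only [hf2]
        rw [if_neg hBg]
    have h2 := rho_smul 𝕜 (e := e) (S := Bg) (a := fun _ => s) (c := 2 * η) (by linarith)
    have h3 := H.rho_pay hBg1 hs0 x hAgs
    exact h1.trans (h2.trans (mul_le_mul_of_nonneg_left h3 (by linarith)))
  have t3 : rho 𝕜 e (B ∪ S) f3 ≤ 2 * η * (K * ‖x‖) := by
    have h1 : rho 𝕜 e (B ∪ S) f3 ≤ rho 𝕜 e S (fun j => 2 * η * cf c x j) := by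
      apply rho_mono 𝕜 (fun j _ => mul_nonneg (by linarith) (cf_nonneg x j))
      intro j hj
      by_cases hS : j ∈ S
      · refine Or.inl ⟨hS, ?_⟩
        simp only [hf3]
        rw [if_pos hS]
      · right
        simp only [hf3]
        rw [if_neg hS]
    have h2 := rho_smul 𝕜 (e := e) (S := S) (a := cf c x) (c := 2 * η) (by linarith)
    exact h1.trans (h2.trans (mul_le_mul_of_nonneg_left (H.rho_coef S x) (by linarith)))
  have t4 : rho 𝕜 e (B ∪ S) f4 ≤ K * ‖z‖ := by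
    have h1 : rho 𝕜 e (B ∪ S) f4 ≤ rho 𝕜 e S (cf c z) := by
      apply rho_mono 𝕜 (fun j _ => cf_nonneg z j)
      intro j hj
      by_cases hS : j ∈ S
      · refine Or.inl ⟨hS, ?_⟩
        simp only [hf4]
        rw [if_pos hS]
      · right
        simp only [hf4]
        rw [if_neg hS]
    exact h1.trans (H.rho_coef S z)
  have t5 : rho 𝕜 e (B ∪ S) f5 ≤ η⁻¹ * (C * (K * ‖z‖)) := by
    have h1 : rho 𝕜 e (B ∪ S) f5 ≤ rho 𝕜 e (B \ Bg) (fun _ => η⁻¹ * (η * t)) := by
      apply rho_mono 𝕜 (fun j _ => by positivity)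
      intro j hj
      by_cases hBb : j ∈ B \ Bg
      · refine Or.inl ⟨hBb, ?_⟩
        simp only [hf5]
        rw [if_pos hBb, ← mul_assoc, inv_mul_cancel₀ hη.ne', one_mul]
      · right
        simp only [hf5]
        rw [if_neg hBb]
    have h2 := rho_smul 𝕜 (e := e) (S := B \ Bg) (a := fun _ => η * t) (c := η⁻¹) (by positivity)
    have h3 := H.rho_pay hBg2 hηt z hAbz
    exact h1.trans (h2.trans (mul_le_mul_of_nonneg_left h3 (by positivity)))
  -- conclusion
  have hinv : 1 ≤ η⁻¹ := by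
    rw [one_le_inv₀ hη]
    linarith
  have hx := norm_nonneg x
  have hz := norm_nonneg z
  have hCK : K ≤ C * K := by nlinarith
  have hKx : 0 ≤ K * ‖x‖ := by positivity
  have hKz : 0 ≤ K * ‖z‖ := by positivity
  have g1 : 2 * η * (K * ‖x‖) ≤ 2 * η * (C * (K * ‖x‖)) := by
    apply mul_le_mul_of_nonneg_left _ (by linarith)
    nlinarith
  have g2 : K * ‖z‖ ≤ η⁻¹ * (C * (K * ‖z‖)) := by
    calc K * ‖z‖ = 1 * (1 * (K * ‖z‖)) := by ring
      _ ≤ η⁻¹ * (C * (K * ‖z‖)) := by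
        apply mul_le_mul hinv _ (by linarith) (by positivity)
        exact mul_le_mul_of_nonneg_right hC hKz
  have g3 : 0 ≤ η⁻¹ * (C * (K * ‖z‖)) := by positivity
  have g4 : 4 * C * K * (η * ‖x‖ + η⁻¹ * ‖z‖) =
      4 * η * (C * (K * ‖x‖)) + 4 * (η⁻¹ * (C * (K * ‖z‖))) := by ring
  rw [g4]
  linarith

/-- numerical inequality -/
lemma num {K' s r : ℝ} (hK' : 0 < K') (hs0 : 0 < s) (hs1 : s ≤ 1 / 2) (hs2 : s * K' ≤ 1)
    (hr0 : 0 < r) (hr1 : r ≤ 1) : (1 + K' * Real.sqrt r) ^ s ≤ 1 + r ^ s := by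
  have h1 : (1 + K' * Real.sqrt r) ^ s ≤ 1 + s * (K' * Real.sqrt r) := by
    apply rpow_one_add_le_one_add_mul_self
    · have : 0 ≤ K' * Real.sqrt r := mul_nonneg hK'.le (Real.sqrt_nonneg r)
      linarith
    · exact hs0.le
    · linarith
  have h2 : s * (K' * Real.sqrt r) ≤ Real.sqrt r := by
    have := mul_le_mul_of_nonneg_right hs2 (Real.sqrt_nonneg r)
    linarith
  have h3 : Real.sqrt r ≤ r ^ s := by
    rw [Real.sqrt_eq_rpow]
    exact Real.rpow_le_rpow_of_exponent_ge hr0 hr1 hs1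
  linarith

/-- the exponent -/
noncomputable def sx (K C : ℝ) : ℝ := min (1 / 2) (1 / (10 * C * K))

lemma GD.sx_pos (H : GD e c K C) : 0 < sx K C := by
  have := H.K1
  have := H.C1
  unfold sx
  positivity

lemma sx_lt : sx K C < 1 := by
  unfold sx
  have := min_le_left (1 / 2) (1 / (10 * C * K))
  linarith

lemma GD.add_le_of_le (H : GD e c K C) (x z : X) (hx : x ≠ 0) (hz : z ≠ 0)
    (hzx : NN 𝕜 e (cf c z) ≤ NN 𝕜 e (cf c x)) :
    NN 𝕜 e (cf c (x + z)) ^ sx K C ≤ NN 𝕜 e (cf c x) ^ sx K C + NN 𝕜 e (cf c z) ^ sx K C := by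
  have hK := H.K1
  have hC := H.C1
  have hCK : 0 < C * K := by positivity
  set a := NN 𝕜 e (cf c x) with ha
  set b := NN 𝕜 e (cf c z) with hb
  have ha0 : 0 < a := lt_of_lt_of_le (norm_pos_iff.mpr hx) (H.norm_le_NN x)
  have hb0 : 0 < b := lt_of_lt_of_le (norm_pos_iff.mpr hz) (H.norm_le_NN z)
  set r := b / a with hr
  have hr0 : 0 < r := div_pos hb0 ha0
  have hr1 : r ≤ 1 := (div_le_one ha0).mpr hzx
  have hsq : 0 < Real.sqrt r := Real.sqrt_pos.mpr hr0
  have hsq1 : Real.sqrt r ≤ 1 := Real.sqrt_le_one.mpr hr1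
  have h1 := H.NN_add x z (η := Real.sqrt r / 2) (by positivity) (by linarith)
  have h2 : NN 𝕜 e (cf c (x + z)) ≤ a * (1 + 10 * C * K * Real.sqrt r) := by
    have h3 : Real.sqrt r / 2 * ‖x‖ ≤ Real.sqrt r / 2 * a :=
      mul_le_mul_of_nonneg_left (H.norm_le_NN x) (by positivity)
    have h4 : (Real.sqrt r / 2)⁻¹ * ‖z‖ ≤ (Real.sqrt r / 2)⁻¹ * b :=
      mul_le_mul_of_nonneg_left (H.norm_le_NN z) (by positivity)
    have h5 : (Real.sqrt r / 2)⁻¹ * b = 2 * Real.sqrt r * a := by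
      have h6 : b = Real.sqrt r * Real.sqrt r * a := by
        rw [Real.mul_self_sqrt hr0.le, hr]
        field_simp
      conv_lhs => rw [h6]
      field_simp
    have h7 : 4 * C * K * (Real.sqrt r / 2 * ‖x‖ + (Real.sqrt r / 2)⁻¹ * ‖z‖) ≤
        4 * C * K * (Real.sqrt r / 2 * a + 2 * Real.sqrt r * a) := by
      apply mul_le_mul_of_nonneg_left _ (by positivity)
      rw [← h5]
      exact add_le_add h3 h4
    calc NN 𝕜 e (cf c (x + z)) ≤ a + 4 * C * K * (Real.sqrt r / 2 * a + 2 * Real.sqrt r * a) :=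
          h1.trans (by linarith)
      _ = a * (1 + 10 * C * K * Real.sqrt r) := by ring
  have hs0 := H.sx_pos
  have hs1 : sx K C ≤ 1 / 2 := min_le_left _ _
  have hs2 : sx K C * (10 * C * K) ≤ 1 := by
    have h3 : sx K C ≤ 1 / (10 * C * K) := min_le_right _ _
    rwa [le_div_iff₀ (by positivity)] at h3
  have h3 := num (by positivity : 0 < 10 * C * K) hs0 hs1 hs2 hr0 hr1
  calc NN 𝕜 e (cf c (x + z)) ^ sx K C ≤ (a * (1 + 10 * C * K * Real.sqrt r)) ^ sx K C :=
        Real.rpow_le_rpow (NN_nonneg _) h2 hs0.le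
    _ = a ^ sx K C * (1 + 10 * C * K * Real.sqrt r) ^ sx K C :=
        Real.mul_rpow ha0.le (by positivity)
    _ ≤ a ^ sx K C * (1 + r ^ sx K C) := mul_le_mul_of_nonneg_left h3 (by positivity)
    _ = a ^ sx K C + b ^ sx K C := by
        rw [mul_add, mul_one, ← Real.mul_rpow ha0.le hr0.le, hr]
        congr 2
        field_simp

lemma GD.s_tri (H : GD e c K C) (x z : X) :
    NN 𝕜 e (cf c (x + z)) ^ sx K C ≤ NN 𝕜 e (cf c x) ^ sx K C + NN 𝕜 e (cf c z) ^ sx K C := by
  rcases eq_or_ne x 0 with rfl | hx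
  · rw [zero_add]
    have : 0 ≤ NN 𝕜 e (cf c (0 : X)) ^ sx K C := Real.rpow_nonneg (NN_nonneg _) _
    linarith
  rcases eq_or_ne z 0 with rfl | hz
  · rw [add_zero]
    have : 0 ≤ NN 𝕜 e (cf c (0 : X)) ^ sx K C := Real.rpow_nonneg (NN_nonneg _) _
    linarith
  rcases le_total (NN 𝕜 e (cf c z)) (NN 𝕜 e (cf c x)) with h | h
  · exact H.add_le_of_le x z hx hz h
  · have := H.add_le_of_le z x hz hx h
    rw [add_comm x z, add_comm (NN 𝕜 e (cf c x) ^ sx K C)]
    exact this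

lemma GD.NN_zero_iff (H : GD e c K C) (x : X) : NN 𝕜 e (cf c x) = 0 ↔ x = 0 := by
  constructor
  · intro h
    have := H.norm_le_NN x
    rw [h] at this
    exact norm_le_zero_iff.mp this
  · rintro rfl
    apply le_antisymm _ (NN_nonneg _)
    have := H.NN_le 0
    rwa [norm_zero, mul_zero] at this

/-- the greedy inequality -/
lemma GD.greedy (H : GD e c K C) (x : X) (A B : Finset ℕ) (hcard : B.card ≤ A.card)
    (hgr : ∀ i ∈ A, ∀ j, j ∉ A → ‖c j x‖ ≤ ‖c i x‖) (b : ℕ → 𝕜) :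
    NN 𝕜 e (cf c (x - ∑ j ∈ A, c j x • e j)) ≤ NN 𝕜 e (cf c (x - ∑ j ∈ B, b j • e j)) := by
  classical
  have hcoef : ∀ (S : Finset ℕ) (a : ℕ → 𝕜) (i : ℕ),
      c i (∑ j ∈ S, a j • e j) = if i ∈ S then a i else 0 := by
    intro S a i
    rw [map_sum]
    simp only [map_smul, H.bi, smul_eq_mul, mul_ite, mul_one, mul_zero]
    rw [Finset.sum_ite_eq]
  have e1 : cf c (x - ∑ j ∈ A, c j x • e j) = fun j => if j ∈ A then 0 else cf c x j := by
    funext i
    unfold cf
    rw [map_sub, hcoef]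
    split_ifs
    · rw [sub_self, norm_zero]
    · rw [sub_zero]
  rw [e1]
  rcases Finset.eq_empty_or_nonempty A with hA | hA
  · subst hA
    have hB : B = ∅ := Finset.card_eq_zero.mp (by simpa using hcard)
    subst hB
    simp
  · obtain ⟨i0, hi0, hmin⟩ := A.exists_min_image (fun j => cf c x j) hA
    set t := cf c x i0 with ht
    rcases eq_or_lt_of_le (cf_nonneg (c := c) x i0) with h0 | h0
    · -- everything off `A` vanishes
      have h1 : (fun j => if j ∈ A then 0 else cf c x j) = cf c (0 : X) := by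
        funext j
        unfold cf
        rw [map_zero, norm_zero]
        split_ifs with hj
        · rfl
        · exact le_antisymm ((hgr i0 hi0 j hj).trans (le_of_eq h0.symm)) (norm_nonneg _)
      rw [h1, (H.NN_zero_iff 0).mpr rfl]
      exact NN_nonneg _
    · apply H.NN_dom
      apply dom_greedy 𝕜 (x := cf c x) (fun j => cf_nonneg x j) (fun j => cf_nonneg _ j) hcard h0
      · intro j hj
        exact hmin j hj
      · intro j hj
        exact hgr i0 hi0 j hj
      · intro j hj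
        unfold cf
        rw [map_sub, hcoef, if_neg hj, sub_zero]

end Q98.SN
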