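import Pool.Agent.Q98.SN.Defs
import Pool.Agent.Q98.SN.Dem
import Pool.Agent.Q98.SN.Main
import Pool.Agent.H75R3.HaarBasis

/-!
The complex Haar system satisfies the hypotheses of the general theorem.
-/

set_option autoImplicit false

namespace Q98.SN

open Finset H75R3 MeasureTheory Filter Topology
open scoped ENNReal
open Pool.Agent.Q98.SNDefs (leb)

instance prob_leb : IsProbabilityMeasure leb := by
  refine ⟨?_⟩
  unfold leb
  rw [Measure.restrict_apply_univ, Real.volume_Icc]
  simp

instance weakly_leb : leb.WeaklyRegular := by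
  unfold leb
  infer_instance

lemma leb_eq : leb = volume.restrict (Set.Ico (0:ℝ) 1) :=
  Measure.restrict_congr_set Ico_ae_eq_Icc.symm

lemma mp_id : MeasurePreserving (id : ℝ → ℝ) leb (volume.restrict (Set.Ico (0:ℝ) 1)) := by
  refine ⟨measurable_id, ?_⟩
  rw [Measure.map_id, leb_eq]

lemma mem_ae : ∀ᵐ x ∂leb, x ∈ Set.Ico (0:ℝ) 1 := by
  rw [leb_eq]
  exact ae_restrict_mem measurableSet_Ico

lemma fract_ae : ∀ᵐ x ∂leb, Int.fract x = x := by
  filter_upwards [mem_ae] with x hx
  exact Int.fract_eq_self.mpr hx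

section

variable (p : ℝ≥0∞) [hp : Fact (1 ≤ p)]

/-- sup-normalised Haar functions -/
noncomputable def e0 (m : ℕ) : Lp ℂ p leb := eh leb p mp_id.measurable m

/-- normalised complex Haar functions -/
noncomputable def hC (m : ℕ) : Lp ℂ p leb := (ww p.toReal m : ℂ) • e0 p m

/-- coefficient functionals -/
noncomputable def cC (m : ℕ) : Lp ℂ p leb →L[ℂ] ℂ :=
  ((ww p.toReal m : ℂ)⁻¹) • ph leb p mp_id.measurable m

lemma ww_ne (m : ℕ) : (ww p.toReal m : ℂ) ≠ 0 := by
  exact_mod_cast (ww_pos p.toReal m).ne'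

lemma cC_smul (m : ℕ) (x : Lp ℂ p leb) :
    cC p m x • hC p m = ph leb p mp_id.measurable m x • e0 p m := by
  unfold cC hC
  rw [_root_.smul_apply, smul_smul, smul_eq_mul]
  congr 1
  have := ww_ne p m
  field_simp

lemma cC_hC (i j : ℕ) : cC p i (hC p j) = if i = j then 1 else 0 := by
  unfold cC hC e0
  rw [_root_.smul_apply, map_smul, ph_eh mp_id, smul_eq_mul, smul_eq_mul]
  split_ifs with h
  · subst h
    rw [mul_one]
    exact inv_mul_cancel₀ (ww_ne p i)
  · rw [mul_zero, mul_zero]

end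

theorem gd_complex (p : ℝ≥0∞) [hp : Fact (1 ≤ p)] (h1 : 1 < p) (hpt : p ≠ ∞) (h2 : p ≠ 2) :
    ∃ K C : ℝ, GD (hC p) (fun m => (cC p m : Lp ℂ p leb →ₗ[ℂ] ℂ)) K C := by
  have hd := eh_dense (p := p) mp_id hpt (fun x => x) continuous_id (by
    filter_upwards [fract_ae] with x hx
    exact hx)
  obtain ⟨C0, H⟩ := exists_HB mp_id h1 hpt h2 hd
  have hP1 : 1 < p.toReal := P_gt p h1 hpt
  have hP0 : 0 < p.toReal := zero_lt_one.trans hP1
  have hpq := Real.HolderConjugate.conjExponent hP1
  set P := p.toReal with hP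
  set Q := Real.conjExponent P with hQ
  have hGP := GG_ge hP0
  have hGQ := GG_ge hpq.symm.pos
  have hC0 := H.pos
  refine ⟨C0 * C0 + 1, (GG P + 1) * (GG Q + 1), ?_, ?_, ?_, ?_, ?_, ?_⟩
  · intro i j
    exact cC_hC p i j
  · intro x
    have h3 := H.expand x
    have h4 : (fun j => cC p j x • hC p j) =
        fun m => ph leb p mp_id.measurable m x • eh leb p mp_id.measurable m := by
      funext m
      exact cC_smul p m x
    show HasSum (fun j => cC p j x • hC p j) x
    rw [h4]
    exact h3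
  · nlinarith
  · nlinarith
  · intro x S b hb
    have hb' : ∀ j ∈ S, ‖b j‖ ≤ ‖cC p j x‖ := hb
    set θ : ℕ → ℂ := fun j => b j / cC p j x with hθ
    have e1 : ∑ j ∈ S, b j • hC p j =
        ∑ j ∈ S, (ph leb p mp_id.measurable j x) • (θ j • eh leb p mp_id.measurable j) := by
      refine Finset.sum_congr rfl fun j hj => ?_
      have h4 := cC_smul p j x
      rw [smul_comm]
      change b j • hC p j = θ j • (ph leb p mp_id.measurable j x • e0 p j)
      rw [← h4, smul_smul]
      congr 1
      simp only [hθ]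
      rcases eq_or_ne (cC p j x) 0 with h0 | h0
      · have h5 := hb' j hj
        rw [h0, norm_zero] at h5
        rw [norm_le_zero_iff.mp h5, zero_div, zero_mul]
      · rw [div_mul_cancel₀ _ h0]
    rw [e1]
    have h5 := H.mult S (fun j => ph leb p mp_id.measurable j x) θ 1 zero_le_one (by
      intro j hj
      simp only [hθ]
      rw [norm_div]
      exact div_le_one_of_le₀ (hb' j hj) (norm_nonneg _))
    have h6 := H.proj S x
    refine h5.trans ?_
    rw [mul_one]
    have h7 := mul_le_mul_of_nonneg_left h6 hC0.le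
    have h8 := norm_nonneg x
    nlinarith
  · intro A B hBA b hb
    obtain ⟨n, hn⟩ : ∃ n : ℕ, A ∪ B ⊆ range (2 ^ n) := by
      refine ⟨(A ∪ B).sup id + 1, fun j hj => ?_⟩
      rw [Finset.mem_range]
      have h3 : j ≤ (A ∪ B).sup id := Finset.le_sup (f := id) hj
      calc j ≤ (A ∪ B).sup id := h3
        _ < (A ∪ B).sup id + 1 := Nat.lt_succ_self _
        _ ≤ 2 ^ ((A ∪ B).sup id + 1) := Nat.lt_two_pow_self.le
    have hAn : A ⊆ range (2 ^ n) := Finset.subset_union_left.trans hn
    have hBn : B ⊆ range (2 ^ n) := Finset.subset_union_right.trans hn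
    have hext : ∀ (D : Finset ℕ), D ⊆ range (2 ^ n) → ∀ β : ℕ → ℂ, ∑ j ∈ D, β j • hC p j =
        ∑ m ∈ range (2 ^ n), (if m ∈ D then β m * (ww P m : ℂ) else 0) •
          eh leb p mp_id.measurable m := by
      intro D hD β
      rw [← Finset.sum_subset hD]
      · refine Finset.sum_congr rfl fun j hj => ?_
        rw [if_pos hj]
        unfold hC e0
        rw [smul_smul]
      · intro j _ hj
        rw [if_neg hj, zero_smul]
    have hlow : (A.card : ℝ) ^ (1 / P) ≤ (GG Q + 1) * ‖∑ j ∈ A, hC p j‖ := by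
      have h3 := NP_lower hpq A n hAn
      have h4 : ∑ j ∈ A, hC p j = ∑ m ∈ range (2 ^ n), (if m ∈ A then (ww P m : ℂ) else 0) •
          eh leb p mp_id.measurable m := by
        have h5 := hext A hAn (fun _ => 1)
        simp only [one_smul, one_mul] at h5
        exact h5
      rw [h4, norm_fin mp_id hpt]
      exact h3
    have hup : ‖∑ j ∈ B, b j • hC p j‖ ≤ (GG P + 1) * (B.card : ℝ) ^ (1 / P) := by
      rw [hext B hBn b, norm_fin mp_id hpt]
      have h3 := NP_bound hP0 B (fun m => if m ∈ B then b m * (ww P m : ℂ) else 0)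
        (fun m hm => by
          rw [if_pos hm, norm_mul, Complex.norm_real, Real.norm_of_nonneg (ww_pos P m).le]
          calc ‖b m‖ * ww P m ≤ 1 * ww P m :=
                mul_le_mul_of_nonneg_right (hb m hm) (ww_pos P m).le
            _ = ww P m := one_mul _)
        (fun m hm => if_neg hm) n
      rw [Finset.inter_eq_left.mpr hBn] at h3
      refine (Real.rpow_le_rpow (NP_nonneg _ _ _) h3 (by positivity)).trans (le_of_eq ?_)
      rw [Real.mul_rpow (by positivity) (by positivity), ← Real.rpow_mul (by linarith), one_div,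
        mul_inv_cancel₀ hP0.ne', Real.rpow_one]
    have hcard : (B.card : ℝ) ^ (1 / P) ≤ (A.card : ℝ) ^ (1 / P) :=
      Real.rpow_le_rpow (by positivity) (by exact_mod_cast hBA) (by positivity)
    calc ‖∑ j ∈ B, b j • hC p j‖ ≤ (GG P + 1) * (B.card : ℝ) ^ (1 / P) := hup
      _ ≤ (GG P + 1) * ((GG Q + 1) * ‖∑ j ∈ A, hC p j‖) :=
          mul_le_mul_of_nonneg_left (hcard.trans hlow) (by linarith)
      _ = (GG P + 1) * (GG Q + 1) * ‖∑ j ∈ A, hC p j‖ := by ring

end Q98.SN
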