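import Pool.Agent.Q98.SN.Defs
import Pool.Agent.Q98.SN.Haar

set_option autoImplicit false

namespace Q98.SN

open Finset H75R3 MeasureTheory Filter Topology
open scoped ENNReal
open Pool.Agent.Q98.SNDefs (haarNK haarFun IsHaar IsSNorm IsEquivalent Expands IsBasis IsOneGreedy)

section general

variable {𝕜 : Type} [RCLike 𝕜] {V : Type} [NormedAddCommGroup V] [NormedSpace 𝕜 V]
  {e : ℕ → V} {c : ℕ → V →L[𝕜] 𝕜} {K C : ℝ}

lemma expands_unique (hbi : ∀ i j, c i (e j) = if i = j then 1 else 0) {a : ℕ → 𝕜} {f : V}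
    (h : Expands e a f) (i : ℕ) : c i f = a i := by
  have h1 : Tendsto (fun n => c i (∑ j ∈ range n, a j • e j)) atTop (𝓝 (c i f)) :=
    ((c i).continuous.tendsto f).comp h
  have h2 : Tendsto (fun n => c i (∑ j ∈ range n, a j • e j)) atTop (𝓝 (a i)) := by
    apply tendsto_const_nhds.congr'
    filter_upwards [eventually_gt_atTop i] with n hn
    rw [map_sum]
    simp only [map_smul, hbi, smul_eq_mul, mul_ite, mul_one, mul_zero]
    rw [Finset.sum_ite_eq, if_pos (Finset.mem_range.mpr hn)]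
  exact tendsto_nhds_unique h1 h2

theorem general (H : GD e (fun m => (c m : V →ₗ[𝕜] 𝕜)) K C) :
    IsBasis 𝕜 e ∧ ∃ (s : ℝ) (N : V → ℝ), 0 < s ∧ s < 1 ∧ IsSNorm 𝕜 s N ∧ IsEquivalent N ∧
      IsOneGreedy 𝕜 e N := by
  have hbi : ∀ i j, c i (e j) = if i = j then 1 else 0 := fun i j => H.bi i j
  have hK := H.K1
  have hC := H.C1
  refine ⟨?_, sx K C, fun f => NN 𝕜 e (cf (fun m => (c m : V →ₗ[𝕜] 𝕜)) f), H.sx_pos, sx_lt,
    ⟨fun f => NN_nonneg _, H.NN_zero_iff, H.NN_smul, H.s_tri⟩,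
    ⟨1, (C + 1) * K, one_pos, by positivity, fun f => ⟨?_, H.NN_le f⟩⟩, ?_⟩
  · intro f
    refine ⟨fun j => c j f, (H.exp f).tendsto_sum_nat, ?_⟩
    intro a ha
    funext j
    exact (expands_unique hbi ha j).symm
  · rw [one_mul]
    exact H.norm_le_NN f
  · intro f a ha A hA B b hBA
    have e1 : ∀ j, a j = c j f := fun j => (expands_unique hbi ha j).symm
    have h1 := H.greedy f A B hBA (fun i hi j hj => by
      have := hA i hi j hj
      rw [e1 i, e1 j] at this
      exact this) b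
    have e2 : ∑ j ∈ A, a j • e j = ∑ j ∈ A, c j f • e j :=
      Finset.sum_congr rfl fun j _ => by rw [e1 j]
    rw [e2]
    exact h1

end general

/-- transfer of greedy data along an isometric embedding of the real space -/
theorem transfer {V W : Type} [NormedAddCommGroup V] [NormedSpace ℝ V] [NormedAddCommGroup W]
    [NormedSpace ℂ W] {e : ℕ → W} {c : ℕ → W →L[ℂ] ℂ} {K C : ℝ}
    (H : GD e (fun m => (c m : W →ₗ[ℂ] ℂ)) K C) (ι : V →+ W) (R : W →+ V)
    (hι : ∀ v, ‖ι v‖ = ‖v‖) (hιs : ∀ (t : ℝ) v, ι (t • v) = (t : ℂ) • ι v)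
    (hRι : ∀ v, R (ι v) = v) (hRc : Continuous R)
    (h : ℕ → V) (hh : ∀ j, ι (h j) = e j) (hR : ∀ (z : ℂ) j, R (z • e j) = z.re • h j) :
    ∃ c' : ℕ → V →L[ℝ] ℝ, GD h (fun m => (c' m : V →ₗ[ℝ] ℝ)) K C := by
  have hιc : Continuous ι := by
    apply continuous_of_continuousAt_zero
    rw [ContinuousAt, map_zero]
    rw [tendsto_zero_iff_norm_tendsto_zero]
    simp only [hι]
    exact tendsto_norm_zero
  have hlip : ∀ m, ∀ v : V, ‖(c m (ι v)).re‖ ≤ ‖c m‖ * ‖v‖ := by
    intro m v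
    rw [Real.norm_eq_abs]
    refine (Complex.abs_re_le_norm _).trans (((c m).le_opNorm _).trans ?_)
    rw [hι]
  set c' : ℕ → V →L[ℝ] ℝ := fun m => LinearMap.mkContinuous
    { toFun := fun v => (c m (ι v)).re
      map_add' := fun v w => by rw [map_add, map_add, Complex.add_re]
      map_smul' := fun t v => by
        rw [hιs, map_smul, smul_eq_mul, Complex.re_ofReal_mul, RingHom.id_apply, smul_eq_mul] }
    ‖c m‖ (hlip m) with hc'
  have hc'a : ∀ m v, c' m v = (c m (ι v)).re := fun m v => rfl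
  have hsum : ∀ (S : Finset ℕ) (b : ℕ → ℝ), ‖∑ j ∈ S, b j • h j‖ =
      ‖∑ j ∈ S, (b j : ℂ) • e j‖ := by
    intro S b
    rw [← hι, map_sum]
    congr 1
    refine Finset.sum_congr rfl fun j _ => ?_
    rw [hιs, hh]
  refine ⟨c', ?_, ?_, H.K1, H.C1, ?_, ?_⟩
  · intro i j
    show c' i (h j) = _
    have h1 : c i (e j) = if i = j then 1 else 0 := H.bi i j
    rw [hc'a, hh, h1]
    split_ifs <;> simp
  · intro v
    show HasSum (fun j => c' j v • h j) v
    have h1 : HasSum (fun j => c j (ι v) • e j) (ι v) := H.exp (ι v)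
    have h2 := h1.map R hRc
    rw [hRι] at h2
    refine h2.congr_fun ?_
    intro j
    rw [Function.comp_apply, hR]
    rfl
  · intro x S b hb
    have hb' : ∀ j ∈ S, ‖b j‖ ≤ ‖(c j (ι x)).re‖ := hb
    rw [hsum, ← hι x]
    apply H.unc (ι x) S (fun j => (b j : ℂ))
    intro j hj
    rw [Complex.norm_real]
    refine (hb' j hj).trans ?_
    rw [Real.norm_eq_abs]
    exact Complex.abs_re_le_norm _
  · intro A B hBA b hb
    rw [hsum]
    have h1 := hsum A (fun _ => 1)
    simp only [one_smul, Complex.ofReal_one] at h1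
    rw [h1]
    apply H.dem A B hBA (fun j => (b j : ℂ))
    intro j hj
    rw [Complex.norm_real]
    exact hb j hj

end Q98.SN
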