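import Pool.Agent.Q98.SN.Final

set_option autoImplicit false

namespace Q98.SN

open Finset H75R3 MeasureTheory Filter Topology
open scoped ENNReal
open Pool.Agent.Q98.SNDefs (leb haarNK haarFun IsHaar IsSNorm IsEquivalent Expands IsBasis
  IsOneGreedy)

lemma ind_eq (a b t : ℝ) (n : ℕ) : (Set.Ico (a / 2 ^ n) (b / 2 ^ n)).indicator (fun _ => (1:ℝ)) t =
    if a ≤ 2 ^ n * t ∧ 2 ^ n * t < b then 1 else 0 := by
  have h2 : (0:ℝ) < 2 ^ n := by positivity
  rw [Set.indicator_apply]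
  congr 1
  rw [Set.mem_Ico, div_le_iff₀ h2, lt_div_iff₀ h2, mul_comm t]

lemma haar_eq {P : ℝ} {t : ℝ} (ht : t ∈ Set.Ico (0:ℝ) 1) (j : ℕ) :
    (haarFun P j t : ℂ) = (ww P j : ℂ) * hr j t := by
  unfold haarFun
  rcases Nat.eq_zero_or_pos j with h0 | h0
  · subst h0
    rw [if_pos rfl, Set.indicator_of_mem ht, ww_zero, hr_zero]
    simp
  · rw [if_neg (by omega)]
    set n := Nat.log 2 j with hn
    have hjL : j ∈ L n := by
      rw [mem_L]
      exact ⟨Nat.pow_log_le_self 2 (by omega), Nat.lt_pow_succ_log_self (by norm_num) j⟩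
    obtain ⟨h1, h2⟩ := mem_L.mp hjL
    obtain ⟨k, hk⟩ : ∃ k, j = 2 ^ n + k := ⟨j - 2 ^ n, by omega⟩
    have hk1 : j - 2 ^ n + 1 = k + 1 := by omega
    have hww : (2:ℝ) ^ ((n:ℝ) / P) = ww P j := by
      rw [ww_L P hjL, ← Real.rpow_natCast, ← Real.rpow_mul (by norm_num)]
      congr 1
      ring
    rw [hk1, hr_L hjL]
    unfold haarNK
    rw [hww, ind_eq, ind_eq]
    have hfr : Int.fract t = t := Int.fract_eq_self.mpr ht
    have hy : (0:ℝ) ≤ 2 ^ n * t := mul_nonneg (by positivity) ht.1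
    have hy1 : (0:ℝ) ≤ 2 ^ (n + 1) * t := mul_nonneg (by positivity) ht.1
    have e1 : nd n t = j ↔ (k:ℝ) ≤ 2 ^ n * t ∧ 2 ^ n * t < k + 1 := by
      unfold nd
      rw [hfr, ← Nat.floor_eq_iff hy]
      omega
    have e2 : nd (n + 1) t = 2 * j ↔ (k:ℝ) ≤ 2 ^ n * t ∧ 2 ^ n * t < k + 1 / 2 := by
      have h3 : nd (n + 1) t = 2 * j ↔ ⌊(2:ℝ) ^ (n + 1) * t⌋₊ = 2 * k := by
        unfold nd
        rw [hfr]
        have : 2 ^ (n + 1) = 2 * 2 ^ n := by ring
        omega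
      rw [h3, Nat.floor_eq_iff hy1, pow_succ]
      push_cast
      constructor
      · rintro ⟨h4, h5⟩
        constructor <;> linarith
      · rintro ⟨h4, h5⟩
        constructor <;> linarith
    set y := (2:ℝ) ^ n * t with hyd
    have e3 : ((k + 1 : ℕ) : ℝ) = (k:ℝ) + 1 := by push_cast; ring
    rw [e3]
    by_cases c1 : (k:ℝ) ≤ y
    · by_cases c2 : y < k + 1 / 2
      · have q1 : (k:ℝ) + 1 - 1 ≤ y ∧ y < k + 1 - 1 / 2 := by constructor <;> linarith
        have q2 : ¬ ((k:ℝ) + 1 - 1 / 2 ≤ y ∧ y < k + 1) := by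
          rintro ⟨h5, h6⟩
          linarith
        have r1 : nd n t = j := e1.mpr ⟨c1, by linarith⟩
        have r2 : nd (n + 1) t = 2 * j := e2.mpr ⟨c1, c2⟩
        rw [if_pos q1, if_neg q2, if_pos r1, if_pos r2]
        simp
      · rw [not_lt] at c2
        by_cases c3 : y < (k:ℝ) + 1
        · have q1 : ¬ ((k:ℝ) + 1 - 1 ≤ y ∧ y < k + 1 - 1 / 2) := by
            rintro ⟨h5, h6⟩
            linarith
          have q2 : (k:ℝ) + 1 - 1 / 2 ≤ y ∧ y < k + 1 := by constructor <;> linarith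
          have r1 : nd n t = j := e1.mpr ⟨c1, by linarith⟩
          have r2 : ¬ nd (n + 1) t = 2 * j := fun h => by
            have := (e2.mp h).2
            linarith
          rw [if_neg q1, if_pos q2, if_pos r1, if_neg r2]
          push_cast
          ring
        · rw [not_lt] at c3
          have q1 : ¬ ((k:ℝ) + 1 - 1 ≤ y ∧ y < k + 1 - 1 / 2) := by
            rintro ⟨h5, h6⟩
            linarith
          have q2 : ¬ ((k:ℝ) + 1 - 1 / 2 ≤ y ∧ y < k + 1) := by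
            rintro ⟨h5, h6⟩
            linarith
          have r1 : ¬ nd n t = j := fun h => by
            have := (e1.mp h).2
            linarith
          rw [if_neg q1, if_neg q2, if_neg r1]
          simp
    · rw [not_le] at c1
      have q1 : ¬ ((k:ℝ) + 1 - 1 ≤ y ∧ y < k + 1 - 1 / 2) := by
        rintro ⟨h5, h6⟩
        linarith
      have q2 : ¬ ((k:ℝ) + 1 - 1 / 2 ≤ y ∧ y < k + 1) := by
        rintro ⟨h5, h6⟩
        linarith
      have r1 : ¬ nd n t = j := fun h => by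
        have := (e1.mp h).1
        linarith
      rw [if_neg q1, if_neg q2, if_neg r1]
      simp

section

variable (p : ℝ≥0∞) [hp : Fact (1 ≤ p)]

lemma hC_ae (j : ℕ) : ∀ᵐ t ∂leb, (hC p j : ℝ → ℂ) t = (haarFun p.toReal j t : ℂ) := by
  unfold hC e0
  filter_upwards [mem_ae, Lp.coeFn_smul (ww p.toReal j : ℂ) (eh leb p mp_id.measurable j),
    eh_coe (μ := leb) (p := p) mp_id.measurable j] with t ht h1 h2
  rw [h1, Pi.smul_apply, h2, haar_eq ht, smul_eq_mul]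
  rfl

/-- real part embedding -/
noncomputable def io : Lp ℝ p leb →L[ℝ] Lp ℂ p leb := Complex.ofRealCLM.compLpL p leb

/-- real part -/
noncomputable def ro : Lp ℂ p leb →L[ℝ] Lp ℝ p leb := Complex.reCLM.compLpL p leb

lemma io_coe (f : Lp ℝ p leb) : ∀ᵐ t ∂leb, (io p f) t = ((f t : ℝ) : ℂ) :=
  ContinuousLinearMap.coeFn_compLpL (p := p) (μ := leb) Complex.ofRealCLM f

lemma ro_coe (f : Lp ℂ p leb) : ∀ᵐ t ∂leb, (ro p f) t = (f t).re :=
  ContinuousLinearMap.coeFn_compLpL (p := p) (μ := leb) Complex.reCLM f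

lemma io_norm (f : Lp ℝ p leb) : ‖io p f‖ = ‖f‖ := by
  rw [Lp.norm_def, Lp.norm_def]
  congr 1
  apply eLpNorm_congr_norm_ae
  filter_upwards [io_coe p f] with t ht
  rw [ht, Complex.norm_real]

lemma io_smul (t : ℝ) (f : Lp ℝ p leb) : io p (t • f) = (t : ℂ) • io p f := by
  rw [map_smul]
  ext1
  filter_upwards [Lp.coeFn_smul t (io p f), Lp.coeFn_smul (t : ℂ) (io p f)] with x h1 h2
  rw [h1, h2, Pi.smul_apply, Pi.smul_apply, Complex.real_smul, smul_eq_mul]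

lemma ro_io (f : Lp ℝ p leb) : ro p (io p f) = f := by
  ext1
  filter_upwards [ro_coe p (io p f), io_coe p f] with x h1 h2
  rw [h1, h2, Complex.ofReal_re]

/-- real Haar functions -/
noncomputable def hR (j : ℕ) : Lp ℝ p leb := ro p (hC p j)

lemma hR_ae (j : ℕ) : ∀ᵐ t ∂leb, (hR p j : ℝ → ℝ) t = haarFun p.toReal j t := by
  unfold hR
  filter_upwards [ro_coe p (hC p j), hC_ae p j] with t h1 h2
  rw [h1, h2, Complex.ofReal_re]

lemma io_hR (j : ℕ) : io p (hR p j) = hC p j := by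
  ext1
  filter_upwards [io_coe p (hR p j), hR_ae p j, hC_ae p j] with t h1 h2 h3
  rw [h1, h2, h3]

lemma ro_smul (z : ℂ) (j : ℕ) : ro p (z • hC p j) = z.re • hR p j := by
  ext1
  filter_upwards [ro_coe p (z • hC p j), Lp.coeFn_smul z (hC p j), hC_ae p j,
    Lp.coeFn_smul z.re (hR p j), hR_ae p j] with t h1 h2 h3 h4 h5
  rw [h1, h2, h4, Pi.smul_apply, Pi.smul_apply, h3, h5, smul_eq_mul, smul_eq_mul,
    Complex.re_mul_ofReal]

lemma isHaar_complex : IsHaar ℂ p (hC p) := fun j => hC_ae p j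

lemma isHaar_real : IsHaar ℝ p (hR p) := fun j => hR_ae p j

end

theorem main_complex (p : ℝ≥0∞) [hp : Fact (1 ≤ p)] (h1 : 1 < p) (hpt : p ≠ ∞) (h2 : p ≠ 2) :
    ∃ h : ℕ → Lp ℂ p leb, IsHaar ℂ p h ∧ IsBasis ℂ h ∧
      ∃ (s : ℝ) (N : Lp ℂ p leb → ℝ), 0 < s ∧ s < 1 ∧ IsSNorm ℂ s N ∧ IsEquivalent N ∧
        IsOneGreedy ℂ h N := by
  obtain ⟨K, C, H⟩ := gd_complex p h1 hpt h2
  obtain ⟨h3, h4⟩ := general H
  exact ⟨hC p, isHaar_complex p, h3, h4⟩

theorem main_real (p : ℝ≥0∞) [hp : Fact (1 ≤ p)] (h1 : 1 < p) (hpt : p ≠ ∞) (h2 : p ≠ 2) :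
    ∃ h : ℕ → Lp ℝ p leb, IsHaar ℝ p h ∧ IsBasis ℝ h ∧
      ∃ (s : ℝ) (N : Lp ℝ p leb → ℝ), 0 < s ∧ s < 1 ∧ IsSNorm ℝ s N ∧ IsEquivalent N ∧
        IsOneGreedy ℝ h N := by
  obtain ⟨K, C, H⟩ := gd_complex p h1 hpt h2
  obtain ⟨c', H'⟩ := transfer H (io p : Lp ℝ p leb →+ Lp ℂ p leb) (ro p : Lp ℂ p leb →+ Lp ℝ p leb)
    (io_norm p) (io_smul p) (ro_io p) (ro p).continuous (hR p) (io_hR p) (ro_smul p)
  obtain ⟨h3, h4⟩ := general H'
  exact ⟨hR p, isHaar_real p, h3, h4⟩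

end Q98.SN
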