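import Mathlib

/-!
The lattice hull norm of an unconditional system.
-/

set_option autoImplicit false

namespace Q98.SN

open Finset

variable (𝕜 : Type*) [RCLike 𝕜] {X : Type*} [NormedAddCommGroup X] [NormedSpace 𝕜 X]

/-- norms of the vectors with coefficients below `a` on `S` -/
def RS (e : ℕ → X) (S : Finset ℕ) (a : ℕ → ℝ) : Set ℝ :=
  {v | ∃ b : ℕ → 𝕜, (∀ j ∈ S, ‖b j‖ ≤ a j) ∧ v = ‖∑ j ∈ S, b j • e j‖}

/-- lattice hull norm -/
noncomputable def rho (e : ℕ → X) (S : Finset ℕ) (a : ℕ → ℝ) : ℝ := sSup (RS 𝕜 e S a)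

variable {e : ℕ → X}

lemma RS_bdd (S : Finset ℕ) (a : ℕ → ℝ) : BddAbove (RS 𝕜 e S a) := by
  refine ⟨∑ j ∈ S, a j * ‖e j‖, ?_⟩
  rintro v ⟨b, hb, rfl⟩
  refine (norm_sum_le _ _).trans (Finset.sum_le_sum fun j hj => ?_)
  rw [norm_smul]
  exact mul_le_mul_of_nonneg_right (hb j hj) (norm_nonneg _)

lemma le_rho {S : Finset ℕ} {a : ℕ → ℝ} {b : ℕ → 𝕜} (h : ∀ j ∈ S, ‖b j‖ ≤ a j) :
    ‖∑ j ∈ S, b j • e j‖ ≤ rho 𝕜 e S a :=
  le_csSup (RS_bdd 𝕜 S a) ⟨b, h, rfl⟩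

lemma rho_le {S : Finset ℕ} {a : ℕ → ℝ} {M : ℝ} (hM : 0 ≤ M)
    (h : ∀ b : ℕ → 𝕜, (∀ j ∈ S, ‖b j‖ ≤ a j) → ‖∑ j ∈ S, b j • e j‖ ≤ M) :
    rho 𝕜 e S a ≤ M := by
  refine Real.sSup_le ?_ hM
  rintro v ⟨b, hb, rfl⟩
  exact h b hb

lemma rho_nonneg (S : Finset ℕ) (a : ℕ → ℝ) : 0 ≤ rho 𝕜 e S a := by
  apply Real.sSup_nonneg
  rintro v ⟨b, hb, rfl⟩
  exact norm_nonneg _

lemma rho_mono {S S' : Finset ℕ} {a a' : ℕ → ℝ} (h' : ∀ j ∈ S', 0 ≤ a' j)
    (h : ∀ j ∈ S, (j ∈ S' ∧ a j ≤ a' j) ∨ a j ≤ 0) : rho 𝕜 e S a ≤ rho 𝕜 e S' a' := by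
  classical
  refine rho_le 𝕜 (rho_nonneg 𝕜 _ _) fun b hb => ?_
  have h1 : ∑ j ∈ S, b j • e j = ∑ j ∈ S', (if j ∈ S then b j else 0) • e j := by
    have e1 : ∑ j ∈ S, b j • e j = ∑ j ∈ S ∩ S', b j • e j := by
      symm
      apply Finset.sum_subset Finset.inter_subset_left
      intro j hj hj'
      have h2 : j ∉ S' := fun h3 => hj' (Finset.mem_inter.mpr ⟨hj, h3⟩)
      rcases h j hj with h3 | h3
      · exact absurd h3.1 h2
      · have h4 : b j = 0 := norm_le_zero_iff.mp ((hb j hj).trans h3)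
        rw [h4, zero_smul]
    have e2 : ∑ j ∈ S', (if j ∈ S then b j else 0) • e j = ∑ j ∈ S ∩ S', b j • e j := by
      rw [← Finset.sum_subset (Finset.inter_subset_right (s₁ := S) (s₂ := S'))]
      · refine Finset.sum_congr rfl fun j hj => ?_
        rw [if_pos (Finset.mem_inter.mp hj).1]
      · intro j hj hj'
        have h2 : j ∉ S := fun h3 => hj' (Finset.mem_inter.mpr ⟨h3, hj⟩)
        rw [if_neg h2, zero_smul]
    rw [e1, e2]
  rw [h1]
  apply le_rho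
  intro j hj
  by_cases hS : j ∈ S
  · rw [if_pos hS]
    rcases h j hS with h3 | h3
    · exact (hb j hS).trans h3.2
    · exact ((hb j hS).trans h3).trans (h' j hj)
  · rw [if_neg hS, norm_zero]
    exact h' j hj

lemma rho_add {S : Finset ℕ} {a a' : ℕ → ℝ} (h : ∀ j ∈ S, 0 ≤ a j) (h' : ∀ j ∈ S, 0 ≤ a' j) :
    rho 𝕜 e S (fun j => a j + a' j) ≤ rho 𝕜 e S a + rho 𝕜 e S a' := by
  refine rho_le 𝕜 (add_nonneg (rho_nonneg 𝕜 _ _) (rho_nonneg 𝕜 _ _)) fun b hb => ?_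
  set l : ℕ → ℝ := fun j => a j / (a j + a' j) with hl
  have e1 : ∑ j ∈ S, b j • e j = ∑ j ∈ S, ((l j : 𝕜) * b j) • e j +
      ∑ j ∈ S, (((1 - l j : ℝ) : 𝕜) * b j) • e j := by
    rw [← Finset.sum_add_distrib]
    refine Finset.sum_congr rfl fun j hj => ?_
    rw [← add_smul]
    congr 1
    push_cast
    ring
  rw [e1]
  refine (norm_add_le _ _).trans (add_le_add (le_rho 𝕜 ?_) (le_rho 𝕜 ?_))
  · intro j hj
    have h1 := h j hj
    have h2 := h' j hj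
    have h3 := hb j hj
    rw [norm_mul, RCLike.norm_ofReal]
    rcases eq_or_lt_of_le (add_nonneg h1 h2) with h0 | h0
    · have h4 : ‖b j‖ = 0 := le_antisymm (h3.trans (le_of_eq h0.symm)) (norm_nonneg _)
      rw [h4, mul_zero]
      exact h1
    · have h4 : 0 ≤ l j := div_nonneg h1 h0.le
      rw [abs_of_nonneg h4]
      calc l j * ‖b j‖ ≤ l j * (a j + a' j) := mul_le_mul_of_nonneg_left h3 h4
        _ = a j := by rw [hl]; field_simp
  · intro j hj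
    have h1 := h j hj
    have h2 := h' j hj
    have h3 := hb j hj
    rw [norm_mul, RCLike.norm_ofReal]
    rcases eq_or_lt_of_le (add_nonneg h1 h2) with h0 | h0
    · have h4 : ‖b j‖ = 0 := le_antisymm (h3.trans (le_of_eq h0.symm)) (norm_nonneg _)
      rw [h4, mul_zero]
      exact h2
    · have h4 : 1 - l j = a' j / (a j + a' j) := by
        rw [hl]; field_simp; ring
      have h5 : 0 ≤ 1 - l j := by rw [h4]; exact div_nonneg h2 h0.le
      rw [abs_of_nonneg h5]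
      calc (1 - l j) * ‖b j‖ ≤ (1 - l j) * (a j + a' j) := mul_le_mul_of_nonneg_left h3 h5
        _ = a' j := by rw [h4]; field_simp

lemma rho_smul {S : Finset ℕ} {a : ℕ → ℝ} {c : ℝ} (hc : 0 ≤ c) :
    rho 𝕜 e S (fun j => c * a j) ≤ c * rho 𝕜 e S a := by
  refine rho_le 𝕜 (mul_nonneg hc (rho_nonneg 𝕜 _ _)) fun b hb => ?_
  rcases eq_or_lt_of_le hc with h0 | h0
  · have h1 : ∑ j ∈ S, b j • e j = 0 := by
      apply Finset.sum_eq_zero
      intro j hj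
      have h2 := hb j hj
      rw [← h0, zero_mul] at h2
      rw [norm_le_zero_iff.mp h2, zero_smul]
    rw [h1, norm_zero, ← h0, zero_mul]
  · have h1 : ∑ j ∈ S, b j • e j = (c : 𝕜) • ∑ j ∈ S, ((c : 𝕜)⁻¹ * b j) • e j := by
      rw [Finset.smul_sum]
      refine Finset.sum_congr rfl fun j _ => ?_
      rw [smul_smul, ← mul_assoc, mul_inv_cancel₀ (by exact_mod_cast h0.ne'), one_mul]
    rw [h1, norm_smul, RCLike.norm_ofReal, abs_of_pos h0]
    apply mul_le_mul_of_nonneg_left _ hc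
    apply le_rho
    intro j hj
    rw [norm_mul, norm_inv, RCLike.norm_ofReal, abs_of_pos h0, inv_mul_le_iff₀ h0]
    exact hb j hj

lemma smul_rho {S : Finset ℕ} {a : ℕ → ℝ} {c : ℝ} (hc : 0 < c) :
    c * rho 𝕜 e S a ≤ rho 𝕜 e S (fun j => c * a j) := by
  have h1 := rho_smul 𝕜 (e := e) (S := S) (a := fun j => c * a j) (c := c⁻¹) (by positivity)
  have h2 : (fun j => c⁻¹ * (c * a j)) = a := by
    funext j
    field_simp
  simp only [h2] at h1
  rwa [inv_mul_eq_div, le_div_iff₀ hc, mul_comm] at h1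

end Q98.SN
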